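import Pool.Agent.Helper89K9.TK.Basic

/-! The set `Bad L` is small; short cycles of `T k` come from `T 1`. -/

set_option autoImplicit false

namespace Pool.Agent.Helper89K9.TK

open Finset

theorem sub_ne {p o : ℕ} (hp : 1 ≤ p) : (2 : ℤ) ^ p - 3 ^ o ≠ 0 := by
  intro h
  have h1 : Even ((2 : ℤ) ^ p) := by
    rw [Int.even_pow]
    exact ⟨by decide, by omega⟩
  have h2 : Odd ((3 : ℤ) ^ o) := Odd.pow (by decide)
  have h3 : (2 : ℤ) ^ p = 3 ^ o := by linarith
  rw [h3] at h1
  exact (Int.not_even_iff_odd.2 h2) h1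

theorem sub_lt {p o : ℕ} (hp : 1 ≤ p) (ho : o ≤ p) : ((2 : ℤ) ^ p - 3 ^ o).natAbs < 3 ^ p := by
  have h1 : (2 : ℤ) ^ p < 3 ^ p := pow_lt_pow_left₀ (by norm_num) (by norm_num) (by omega)
  have h2 : (3 : ℤ) ^ o ≤ 3 ^ p := pow_le_pow_right₀ (by norm_num) ho
  have h3 : (0 : ℤ) < 2 ^ p := by positivity
  have h4 : (0 : ℤ) < 3 ^ o := by positivity
  have h5 : |(2 : ℤ) ^ p - 3 ^ o| < 3 ^ p := by
    rw [abs_lt]
    constructor <;> linarith
  have : (((2 : ℤ) ^ p - 3 ^ o).natAbs : ℤ) < ((3 ^ p : ℕ) : ℤ) := by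
    rw [Int.natCast_natAbs]
    push_cast
    exact h5
  exact_mod_cast this

/-- the prime factors at least five -/
def pf (n : ℕ) : Finset ℕ := n.primeFactors.filter (fun q => 5 ≤ q)

theorem card_pf {n p : ℕ} (hn : n ≠ 0) (hlt : n < 3 ^ p) (hp : 1 ≤ p) : (pf n).card ≤ p - 1 := by
  have h1 : 5 ^ (pf n).card ≤ ∏ q ∈ pf n, q := by
    rw [← Finset.prod_const]
    exact Finset.prod_le_prod' (fun q hq => (Finset.mem_filter.1 hq).2)
  have h2 : ∏ q ∈ pf n, q ≤ n := by
    apply Nat.le_of_dvd (Nat.pos_of_ne_zero hn)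
    refine dvd_trans ?_ (Nat.prod_primeFactors_dvd n)
    exact Finset.prod_dvd_prod_of_subset _ _ _ (Finset.filter_subset _ _)
  have h3 : 5 ^ (pf n).card < 3 ^ p := lt_of_le_of_lt (h1.trans h2) hlt
  by_contra hcon
  have h4 : p ≤ (pf n).card := by omega
  have h5 : 3 ^ p ≤ 5 ^ (pf n).card :=
    (Nat.pow_le_pow_left (by norm_num) p).trans (Nat.pow_le_pow_right (by norm_num) h4)
  omega

theorem bad_sub (L : ℕ) : Bad L ⊆ ((Icc 1 L).biUnion (fun p => (range (p + 1)).biUnion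
    (fun o => pf ((2 : ℤ) ^ p - 3 ^ o).natAbs)) : Finset ℕ) := by
  rintro q ⟨hq, h5, p, o, hp, hpL, ho, hdvd⟩
  rw [Finset.mem_coe, Finset.mem_biUnion]
  refine ⟨p, Finset.mem_Icc.2 ⟨hp, hpL⟩, ?_⟩
  rw [Finset.mem_biUnion]
  refine ⟨o, Finset.mem_range.2 (by omega), ?_⟩
  unfold pf
  rw [Finset.mem_filter, Nat.mem_primeFactors]
  refine ⟨⟨hq, Int.natCast_dvd.1 hdvd, ?_⟩, h5⟩
  simpa using sub_ne hp

theorem bad_finite (L : ℕ) : (Bad L).Finite := (Finset.finite_toSet _).subset (bad_sub L)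

theorem bad_card (L : ℕ) : (Bad L).ncard ≤ L ^ 3 := by
  refine (Set.ncard_le_ncard (bad_sub L) (Finset.finite_toSet _)).trans ?_
  rw [Set.ncard_coe_finset]
  refine Finset.card_biUnion_le.trans ?_
  have h1 : ∀ p ∈ Icc 1 L, ((range (p + 1)).biUnion
      (fun o => pf ((2 : ℤ) ^ p - 3 ^ o).natAbs)).card ≤ L ^ 2 := by
    intro p hp
    rw [Finset.mem_Icc] at hp
    refine Finset.card_biUnion_le.trans ?_
    have h2 : ∀ o ∈ range (p + 1), (pf ((2 : ℤ) ^ p - 3 ^ o).natAbs).card ≤ p - 1 := by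
      intro o ho
      rw [Finset.mem_range] at ho
      exact card_pf (by simpa using sub_ne hp.1) (sub_lt hp.1 (by omega)) hp.1
    refine (Finset.sum_le_sum h2).trans ?_
    rw [Finset.sum_const, Finset.card_range, smul_eq_mul]
    obtain ⟨a, rfl⟩ : ∃ a, p = a + 1 := ⟨p - 1, by omega⟩
    simp only [Nat.add_sub_cancel]
    nlinarith [hp.2]
  refine (Finset.sum_le_sum h1).trans ?_
  rw [Finset.sum_const, Nat.card_Icc, smul_eq_mul]
  simp only [Nat.add_sub_cancel]
  apply le_of_eq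
  ring

theorem coprime_prime {k : ℤ} (hk : k % 6 = 1 ∨ k % 6 = 5) {q : ℕ} (hq : q.Prime) (hd : (q : ℤ) ∣ k) :
    5 ≤ q := by
  by_contra hlt
  have h2 := hq.two_le
  interval_cases q
  · obtain ⟨c, hc⟩ := hd
    push_cast at hc
    omega
  · obtain ⟨c, hc⟩ := hd
    push_cast at hc
    omega
  · exact absurd hq (by norm_num)

theorem short_fixed {L n : ℕ} (h1 : 1 ≤ n) (hnL : n ≤ L) : ∀ (m : ℕ) (k x : ℤ), k.natAbs ≤ m →
    (k % 6 = 1 ∨ k % 6 = 5) → (∀ q : ℕ, q ∈ Bad L → ¬ (q : ℤ) ∣ k) →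
    (T k)^[n] x = x → ∃ y, x = k * y ∧ (T 1)^[n] y = y := by
  intro m
  induction m with
  | zero =>
    intro k x hkm hk _ _
    have : k = 0 := by omega
    omega
  | succ m ih =>
    intro k x hkm hk hB hx
    by_cases hk1 : k.natAbs = 1
    · rcases Int.natAbs_eq k with h | h
      · rw [hk1] at h
        push_cast at h
        subst h
        exact ⟨x, by ring, hx⟩
      · rw [hk1] at h
        push_cast at h
        subst h
        refine ⟨-x, by ring, ?_⟩
        have := iter_mul (k := 1) (c := -1) (by norm_num) (by norm_num) (-x) n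
        simp only [mul_one, mul_neg, neg_mul, one_mul, neg_neg] at this
        rw [hx] at this
        linarith
    · have hq : (k.natAbs.minFac).Prime := Nat.minFac_prime hk1
      set q := k.natAbs.minFac with hqdef
      have hd : (q : ℤ) ∣ k := Int.natCast_dvd.2 (Nat.minFac_dvd _)
      have h5 : 5 ≤ q := coprime_prime hk hq hd
      have hqx : (q : ℤ) ∣ x := by
        by_contra hno
        have hnb : q ∉ Bad L := fun h => hB q h hd
        have := distinct (L := L) (k := k) (q := q) (by omega) hq h5 hd hnb hno (i := 0) (j := n)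
          (by omega) (by omega)
        apply this
        rw [hx]
        exact Int.ModEq.refl _
      obtain ⟨k1, hk1'⟩ := hd
      obtain ⟨x1, hx1⟩ := hqx
      have hq2 : (q : ℤ) % 2 = 1 := by
        rcases hq.eq_two_or_odd with h | h
        · omega
        · omega
      have hk12 : k1 % 2 = 1 := by
        by_contra hcon
        have h0 : k1 % 2 = 0 := by omega
        have : k % 2 = 0 := by rw [hk1', Int.mul_emod, h0]; simp
        omega
      have hk13 : k1 % 3 ≠ 0 := by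
        intro h0
        have : k % 3 = 0 := by rw [hk1', Int.mul_emod, h0]; simp
        omega
      have hk16 : k1 % 6 = 1 ∨ k1 % 6 = 5 := by omega
      have hx2 : (T k1)^[n] x1 = x1 := by
        have e := iter_mul hk12 hq2 x1 n
        rw [← hk1', ← hx1, hx, hx1] at e
        have hq0 : (q : ℤ) ≠ 0 := by
          have := hq.pos
          omega
        exact (mul_left_cancel₀ hq0 e).symm
      have hk1m : k1.natAbs ≤ m := by
        have e : k.natAbs = q * k1.natAbs := by rw [hk1', Int.natAbs_mul, Int.natAbs_natCast]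
        have hpos : 0 < k1.natAbs := by omega
        nlinarith
      obtain ⟨y, hy1, hy2⟩ := ih k1 x1 hk1m hk16 (fun r hr hd => hB r hr (by
        rw [hk1']; exact Dvd.dvd.mul_left hd _)) hx2
      refine ⟨y, ?_, hy2⟩
      rw [hx1, hy1, ← mul_assoc, ← hk1']

theorem short_cycles {L n : ℕ} (h1 : 1 ≤ n) (hnL : n ≤ L) {k : ℤ} (hk : k % 6 = 1 ∨ k % 6 = 5)
    (hB : ∀ q : ℕ, q ∈ Bad L → ¬ (q : ℤ) ∣ k) (x : ℤ) :
    (T k)^[n] x = x ↔ ∃ y, x = k * y ∧ (T 1)^[n] y = y := by
  constructor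
  · exact short_fixed h1 hnL _ k x le_rfl hk hB
  · rintro ⟨y, rfl, hy⟩
    have := iter_mul (k := 1) (c := k) (by norm_num) (by omega) y n
    rw [mul_one, hy] at this
    exact this

end Pool.Agent.Helper89K9.TK
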