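import Pool.Agent.Helper89K9.TK.Main
import Pool.Agent.Helper89K9.TK.Cyc
import Pool.Agent.H386R2.Artin.SmoothFew

/-! Few classes for almost all integers `k`. -/

set_option autoImplicit false

namespace Pool.Agent.Helper89K9.TK

open Finset

theorem few_mono {k : ℤ} {X B B' : ℝ} (h : FewClasses k X B) (hB : B ≤ B') : FewClasses k X B' :=
  fun S hS hm => (h S hS hm).trans hB

theorem finite_version {δ : ℝ} (hδ : 0 < δ) : ∃ c C : ℝ, 0 < c ∧ 0 < C ∧ ∀ K : ℕ, 1 ≤ K →
    ∃ E : Finset ℕ, (E.card : ℝ) ≤ δ * K ∧ ∀ k : ℤ, (k % 6 = 1 ∨ k % 6 = 5) → k.natAbs ≤ K →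
      k.natAbs ∉ E → ∀ X : ℝ, |(k : ℝ)| ≤ X → FewClasses k X (C * X ^ (1 - c)) := by
  classical
  obtain ⟨u, hu, N0, hN0⟩ := Pool.Agent.H386R2.Artin.smoothFew (δ / 2) (by positivity)
  have hur : (1 : ℝ) ≤ u := by exact_mod_cast hu
  set K1 : ℕ := max N0 (⌈(2 / δ) ^ (4 * (u : ℝ))⌉₊) + 1 with hK1
  set c : ℝ := 1 / (25 * u) with hc
  have hc0 : 0 < c := by positivity
  have hc1 : c ≤ 1 / (8 * u) := by
    rw [hc]
    apply one_div_le_one_div_of_le (by positivity)
    linarith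
  have hc2 : c ≤ 1 / 25 := by
    rw [hc]
    apply one_div_le_one_div_of_le (by norm_num)
    linarith
  refine ⟨c, 20000 * (2 + 32 * u + K1), hc0, by positivity, ?_⟩
  intro K hK
  have hKr : (1 : ℝ) ≤ K := by exact_mod_cast hK
  have hKpos : (0 : ℝ) < K := by linarith
  by_cases hsmall : K < K1
  · refine ⟨∅, by simp; positivity, ?_⟩
    intro k hk hkK _ X hX
    have hk1 := abs_k (k := k) (by omega)
    have hX1 : 1 ≤ X := hk1.trans hX
    apply few_mono (trivial_count (by omega) hX)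
    have a1 : X ^ (951 / 1000 : ℝ) ≤ X ^ (1 - c) :=
      Real.rpow_le_rpow_of_exponent_le hX1 (by linarith)
    have a2 : 1 ≤ X ^ (1 - c) := Real.one_le_rpow hX1 (by linarith)
    have a3 : |(k : ℝ)| ≤ K1 := by
      rw [← natAbs_real]
      have : k.natAbs ≤ K1 := by omega
      exact_mod_cast this
    have a4 : |(k : ℝ)| ≤ K1 * X ^ (1 - c) := by nlinarith
    have a5 : 0 ≤ (32 * u + 1) * X ^ (1 - c) := by positivity
    nlinarith
  · push Not at hsmall
    set y : ℝ := (K : ℝ) ^ (1 / (u : ℝ)) with hy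
    have hypos : 0 < y := by positivity
    set L : ℕ := ⌊(K : ℝ) ^ (1 / (4 * (u : ℝ)))⌋₊ with hL
    have hLge : 1 ≤ (K : ℝ) ^ (1 / (4 * (u : ℝ))) := Real.one_le_rpow hKr (by positivity)
    have hL1 : 1 ≤ L := Nat.le_floor (by simpa using hLge)
    have hLle : (L : ℝ) ≤ (K : ℝ) ^ (1 / (4 * (u : ℝ))) := Nat.floor_le (by positivity)
    set E1 := (Icc 1 K).filter (fun a => ∀ p : ℕ, p.Prime → p ∣ a → (p : ℝ) ≤ y) with hE1
    set Q := (bad_finite L).toFinset.filter (fun q : ℕ => y < (q : ℝ)) with hQ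
    set E2 := Q.biUnion (fun q => (Icc 1 K).filter (fun a : ℕ => q ∣ a)) with hE2
    have c1 : (E1.card : ℝ) ≤ δ / 2 * K := hN0 K (by omega)
    have c2 : (E2.card : ℝ) ≤ δ / 2 * K := by
      have b1 : (E2.card : ℝ) ≤ ∑ q ∈ Q, (K : ℝ) / y := by
        have : E2.card ≤ ∑ q ∈ Q, ((Icc 1 K).filter (fun a : ℕ => q ∣ a)).card := Finset.card_biUnion_le
        calc (E2.card : ℝ) ≤ ∑ q ∈ Q, (((Icc 1 K).filter (fun a : ℕ => q ∣ a)).card : ℝ) := by
              exact_mod_cast this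
          _ ≤ ∑ q ∈ Q, (K : ℝ) / y := by
            apply Finset.sum_le_sum
            intro q hq
            rw [hQ, Finset.mem_filter] at hq
            have e : ((Icc 1 K).filter (fun a : ℕ => q ∣ a)).card = K / q := by
              rw [← Nat.Ioc_filter_dvd_card_eq_div]
              rfl
            rw [e]
            calc ((K / q : ℕ) : ℝ) ≤ (K : ℝ) / q := Nat.cast_div_le
              _ ≤ (K : ℝ) / y := div_le_div_of_nonneg_left (by positivity) hypos hq.2.le
      have b2 : (Q.card : ℝ) ≤ (L : ℝ) ^ 3 := by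
        have h1 : Q.card ≤ (bad_finite L).toFinset.card := Finset.card_le_card (Finset.filter_subset _ _)
        have h2 : (bad_finite L).toFinset.card = (Bad L).ncard :=
          (Set.ncard_eq_toFinset_card _ (bad_finite L)).symm
        rw [h2] at h1
        exact_mod_cast h1.trans (bad_card L)
      rw [Finset.sum_const, nsmul_eq_mul] at b1
      refine b1.trans ?_
      have b3 : (L : ℝ) ^ 3 ≤ (K : ℝ) ^ (3 / (4 * (u : ℝ))) := by
        calc (L : ℝ) ^ 3 ≤ ((K : ℝ) ^ (1 / (4 * (u : ℝ)))) ^ 3 :=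
              pow_le_pow_left₀ (Nat.cast_nonneg _) hLle 3
          _ = (K : ℝ) ^ (3 / (4 * (u : ℝ))) := by
            rw [← Real.rpow_natCast, ← Real.rpow_mul hKpos.le]
            congr 1
            push_cast
            ring
      have b4 : (2 / δ) ≤ (K : ℝ) ^ (1 / (4 * (u : ℝ))) := by
        have h1 : (2 / δ) ^ (4 * (u : ℝ)) ≤ K := by
          calc (2 / δ) ^ (4 * (u : ℝ)) ≤ ((⌈(2 / δ) ^ (4 * (u : ℝ))⌉₊ : ℕ) : ℝ) := Nat.le_ceil _
            _ ≤ K := by
              have : ⌈(2 / δ) ^ (4 * (u : ℝ))⌉₊ ≤ K := by omega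
              exact_mod_cast this
        have h2 := Real.rpow_le_rpow (by positivity) h1 (z := 1 / (4 * (u : ℝ))) (by positivity)
        rw [← Real.rpow_mul (by positivity)] at h2
        have h3 : 4 * (u : ℝ) * (1 / (4 * (u : ℝ))) = 1 := by field_simp
        rw [h3, Real.rpow_one] at h2
        exact h2
      have b5 : (K : ℝ) ^ (3 / (4 * (u : ℝ))) * (K : ℝ) ^ (1 / (4 * (u : ℝ))) = y := by
        rw [hy, ← Real.rpow_add hKpos]
        congr 1
        field_simp
        norm_num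
      have b6 : 0 < (K : ℝ) ^ (1 / (4 * (u : ℝ))) := by positivity
      rw [mul_div_assoc', div_le_iff₀ hypos, ← b5]
      have b7 : 1 ≤ δ / 2 * (K : ℝ) ^ (1 / (4 * (u : ℝ))) := by
        rw [div_le_iff₀ hδ] at b4
        linarith
      have b8 : 0 < (K : ℝ) ^ (3 / (4 * (u : ℝ))) := by positivity
      calc (Q.card : ℝ) * K ≤ (K : ℝ) ^ (3 / (4 * (u : ℝ))) * K :=
            mul_le_mul_of_nonneg_right (b2.trans b3) hKpos.le
        _ = (K : ℝ) ^ (3 / (4 * (u : ℝ))) * K * 1 := by ring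
        _ ≤ (K : ℝ) ^ (3 / (4 * (u : ℝ))) * K * (δ / 2 * (K : ℝ) ^ (1 / (4 * (u : ℝ)))) :=
            mul_le_mul_of_nonneg_left b7 (by positivity)
        _ = _ := by ring
    refine ⟨E1 ∪ E2, ?_, ?_⟩
    · have : (E1 ∪ E2).card ≤ E1.card + E2.card := Finset.card_union_le _ _
      have h2 : ((E1 ∪ E2).card : ℝ) ≤ E1.card + E2.card := by exact_mod_cast this
      linarith
    · intro k hk hkK hkE X hX
      have hk1 := abs_k (k := k) (by omega)
      have hX1 : 1 ≤ X := hk1.trans hX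
      rw [Finset.mem_union, not_or] at hkE
      have hkI : k.natAbs ∈ Icc 1 K := by
        rw [Finset.mem_Icc]
        omega
      have h1 : ∃ p : ℕ, p.Prime ∧ p ∣ k.natAbs ∧ y < (p : ℝ) := by
        by_contra hcon
        push Not at hcon
        exact hkE.1 (Finset.mem_filter.2 ⟨hkI, hcon⟩)
      obtain ⟨q, hqp, hqd, hqy⟩ := h1
      have hqB : q ∉ Bad L := by
        intro hq
        apply hkE.2
        rw [hE2, Finset.mem_biUnion]
        refine ⟨q, ?_, Finset.mem_filter.2 ⟨hkI, hqd⟩⟩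
        rw [hQ, Finset.mem_filter, Set.Finite.mem_toFinset]
        exact ⟨hq, hqy⟩
      have hqk : (q : ℤ) ∣ k := Int.natCast_dvd.2 hqd
      have hq5 : 5 ≤ q := coprime_prime hk hqp hqk
      apply few_mono (main_count hL1 (by omega) hqp hq5 hqk hqB hX)
      set Z := |(k : ℝ)| with hZ
      have hZ0 : 0 < Z := by linarith
      have hZK : Z ≤ K := by
        rw [hZ, ← natAbs_real]
        exact_mod_cast hkK
      set W := X ^ (1 - c) with hW
      have a1 : X ^ (951 / 1000 : ℝ) ≤ W := Real.rpow_le_rpow_of_exponent_le hX1 (by linarith)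
      have a2 : 1 ≤ W := Real.one_le_rpow hX1 (by linarith)
      have a3 : Z ^ (1 - c) ≤ W := Real.rpow_le_rpow hZ0.le hX (by linarith)
      have a4 : Z / q ≤ W := by
        have h2 : Z ^ (1 / (u : ℝ)) ≤ q := by
          calc Z ^ (1 / (u : ℝ)) ≤ y := Real.rpow_le_rpow hZ0.le hZK (by positivity)
            _ ≤ q := hqy.le
        have h3 : 0 < Z ^ (1 / (u : ℝ)) := by positivity
        calc Z / q ≤ Z / Z ^ (1 / (u : ℝ)) := div_le_div_of_nonneg_left hZ0.le h3 h2
          _ = Z ^ (1 - 1 / (u : ℝ)) := by rw [Real.rpow_sub hZ0, Real.rpow_one]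
          _ ≤ Z ^ (1 - c) := by
            apply Real.rpow_le_rpow_of_exponent_le hk1
            have : 1 / (8 * (u : ℝ)) ≤ 1 / u := by
              apply one_div_le_one_div_of_le (by linarith)
              linarith
            linarith
          _ ≤ W := a3
      have a5 : Z * Real.log (Z + 1) / L ≤ 32 * u * W := by
        have hLpos : (0 : ℝ) < L := by
          have : 0 < L := hL1
          exact_mod_cast this
        have h2 : Z ^ (1 / (4 * (u : ℝ))) ≤ 2 * L := by
          have h3 : Z ^ (1 / (4 * (u : ℝ))) ≤ (K : ℝ) ^ (1 / (4 * (u : ℝ))) :=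
            Real.rpow_le_rpow hZ0.le hZK (by positivity)
          have h4 := Nat.lt_floor_add_one ((K : ℝ) ^ (1 / (4 * (u : ℝ))))
          rw [← hL] at h4
          have h5 : (1 : ℝ) ≤ L := by exact_mod_cast hL1
          linarith
        have h3 : Real.log (Z + 1) ≤ 16 * u * Z ^ (1 / (8 * (u : ℝ))) := by
          have g1 : Real.log (Z + 1) ≤ (Z + 1) ^ (1 / (8 * (u : ℝ))) / (1 / (8 * (u : ℝ))) :=
            Real.log_le_rpow_div (by linarith) (by positivity)
          have g2 : (Z + 1) ^ (1 / (8 * (u : ℝ))) ≤ (2 * Z) ^ (1 / (8 * (u : ℝ))) :=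
            Real.rpow_le_rpow (by linarith) (by linarith) (by positivity)
          have g3 : (2 * Z) ^ (1 / (8 * (u : ℝ))) ≤ 2 * Z ^ (1 / (8 * (u : ℝ))) := by
            rw [Real.mul_rpow (by norm_num) hZ0.le]
            apply mul_le_mul_of_nonneg_right _ (by positivity)
            calc (2 : ℝ) ^ (1 / (8 * (u : ℝ))) ≤ 2 ^ (1 : ℝ) := by
                  apply Real.rpow_le_rpow_of_exponent_le (by norm_num)
                  rw [div_le_one (by positivity)]
                  linarith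
              _ = 2 := Real.rpow_one 2
          calc Real.log (Z + 1) ≤ (Z + 1) ^ (1 / (8 * (u : ℝ))) / (1 / (8 * (u : ℝ))) := g1
            _ = 8 * u * (Z + 1) ^ (1 / (8 * (u : ℝ))) := by field_simp
            _ ≤ 8 * u * (2 * Z ^ (1 / (8 * (u : ℝ)))) :=
              mul_le_mul_of_nonneg_left (g2.trans g3) (by positivity)
            _ = 16 * u * Z ^ (1 / (8 * (u : ℝ))) := by ring
        rw [div_le_iff₀ hLpos]
        have h4 : Z * Z ^ (1 / (8 * (u : ℝ))) ≤ W * Z ^ (1 / (4 * (u : ℝ))) := by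
          have g1 : Z * Z ^ (1 / (8 * (u : ℝ))) = Z ^ (1 + 1 / (8 * (u : ℝ))) := by
            rw [Real.rpow_add hZ0, Real.rpow_one]
          have g2 : Z ^ (1 - c) * Z ^ (1 / (4 * (u : ℝ))) = Z ^ (1 - c + 1 / (4 * (u : ℝ))) := by
            rw [Real.rpow_add hZ0]
          have g3 : Z ^ (1 + 1 / (8 * (u : ℝ))) ≤ Z ^ (1 - c + 1 / (4 * (u : ℝ))) := by
            apply Real.rpow_le_rpow_of_exponent_le hk1
            have : 1 / (4 * (u : ℝ)) = 2 * (1 / (8 * (u : ℝ))) := by field_simp; norm_num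
            linarith
          calc Z * Z ^ (1 / (8 * (u : ℝ))) = Z ^ (1 + 1 / (8 * (u : ℝ))) := g1
            _ ≤ Z ^ (1 - c + 1 / (4 * (u : ℝ))) := g3
            _ = Z ^ (1 - c) * Z ^ (1 / (4 * (u : ℝ))) := g2.symm
            _ ≤ W * Z ^ (1 / (4 * (u : ℝ))) := mul_le_mul_of_nonneg_right a3 (by positivity)
        calc Z * Real.log (Z + 1) ≤ Z * (16 * u * Z ^ (1 / (8 * (u : ℝ)))) :=
              mul_le_mul_of_nonneg_left h3 hZ0.le
          _ = 16 * u * (Z * Z ^ (1 / (8 * (u : ℝ)))) := by ring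
          _ ≤ 16 * u * (W * Z ^ (1 / (4 * (u : ℝ)))) := mul_le_mul_of_nonneg_left h4 (by positivity)
          _ ≤ 16 * u * (W * (2 * L)) := by
            apply mul_le_mul_of_nonneg_left _ (by positivity)
            exact mul_le_mul_of_nonneg_left h2 (by linarith)
          _ = 32 * u * W * L := by ring
      have a6 : 0 ≤ (K1 : ℝ) * W := by positivity
      calc 20000 * (X ^ (951 / 1000 : ℝ) + Z / q + Z * Real.log (Z + 1) / L) ≤
            20000 * (W + W + 32 * u * W + K1 * W) := by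
              apply mul_le_mul_of_nonneg_left _ (by norm_num)
              linarith
        _ = 20000 * (2 + 32 * u + K1) * W := by ring

/-- Few classes for all `k` outside a set of density at most `δ`. -/
theorem almost_all {δ : ℝ} (hδ : 0 < δ) : ∃ c C : ℝ, 0 < c ∧ 0 < C ∧ ∃ E : Set ℕ,
    (∀ K : ℕ, ((E ∩ Set.Icc 1 K).ncard : ℝ) ≤ δ * K) ∧
    ∀ k : ℤ, (k % 6 = 1 ∨ k % 6 = 5) → k.natAbs ∉ E →
      ∀ X : ℝ, |(k : ℝ)| ≤ X → FewClasses k X (C * X ^ (1 - c)) := by
  classical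
  obtain ⟨c, C, hc, hC, h⟩ := finite_version (δ := δ / 4) (by positivity)
  have h' : ∀ i : ℕ, ∃ E : Finset ℕ, (E.card : ℝ) ≤ δ / 4 * 2 ^ i ∧ ∀ k : ℤ,
      (k % 6 = 1 ∨ k % 6 = 5) → k.natAbs ≤ 2 ^ i → k.natAbs ∉ E →
        ∀ X : ℝ, |(k : ℝ)| ≤ X → FewClasses k X (C * X ^ (1 - c)) := by
    intro i
    obtain ⟨E, h1, h2⟩ := h (2 ^ i) Nat.one_le_two_pow
    refine ⟨E, ?_, h2⟩
    push_cast at h1
    exact h1
  choose E hE1 hE2 using h'
  refine ⟨c, C, hc, hC, {a | a ∈ E (Nat.log 2 a + 1)}, ?_, ?_⟩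
  · intro K
    rcases Nat.eq_zero_or_pos K with hK | hK
    · subst hK
      have : ({a | a ∈ E (Nat.log 2 a + 1)} ∩ Set.Icc 1 0 : Set ℕ) = ∅ := by
        ext a
        simp
      rw [this]
      simp
    set I := Nat.log 2 K with hI
    have hsub : ({a | a ∈ E (Nat.log 2 a + 1)} ∩ Set.Icc 1 K : Set ℕ) ⊆
        ((range (I + 1)).biUnion (fun i => E (i + 1)) : Finset ℕ) := by
      rintro a ⟨ha1, ha2⟩
      rw [Finset.mem_coe, Finset.mem_biUnion]
      refine ⟨Nat.log 2 a, ?_, ha1⟩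
      rw [Finset.mem_range]
      have := Nat.log_mono_right (b := 2) ha2.2
      omega
    have h1 : (({a | a ∈ E (Nat.log 2 a + 1)} ∩ Set.Icc 1 K : Set ℕ).ncard : ℝ) ≤
        ∑ i ∈ range (I + 1), δ / 4 * 2 ^ (i + 1) := by
      have a1 : ({a | a ∈ E (Nat.log 2 a + 1)} ∩ Set.Icc 1 K : Set ℕ).ncard ≤
          ∑ i ∈ range (I + 1), (E (i + 1)).card := by
        refine (Set.ncard_le_ncard hsub (Finset.finite_toSet _)).trans ?_
        rw [Set.ncard_coe_finset]
        exact Finset.card_biUnion_le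
      calc _ ≤ ∑ i ∈ range (I + 1), ((E (i + 1)).card : ℝ) := by exact_mod_cast a1
        _ ≤ _ := Finset.sum_le_sum (fun i _ => hE1 (i + 1))
    refine h1.trans ?_
    have h2 : ∀ n : ℕ, ∑ i ∈ range (n + 1), δ / 4 * (2 : ℝ) ^ (i + 1) ≤ δ * 2 ^ n := by
      intro n
      induction n with
      | zero => norm_num; linarith
      | succ n ih =>
        rw [Finset.sum_range_succ]
        have e : δ / 4 * (2 : ℝ) ^ (n + 1 + 1) = δ * 2 ^ n := by ring
        rw [e, pow_succ]
        linarith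
    refine (h2 I).trans ?_
    apply mul_le_mul_of_nonneg_left _ hδ.le
    have : 2 ^ I ≤ K := Nat.pow_log_le_self 2 (by omega)
    exact_mod_cast this
  · intro k hk hkE X hX
    refine hE2 (Nat.log 2 k.natAbs + 1) k hk ?_ hkE X hX
    exact (Nat.lt_pow_succ_log_self (by norm_num) _).le

end Pool.Agent.Helper89K9.TK
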