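import Mathlib

/-! The `3x+k` maps: relations `2^p = 3^o` modulo the prime factors of `k` (helper89). -/

set_option autoImplicit false

namespace Pool.Agent.Helper89K9.TK

/-- the `3x+k` map -/
def T (k x : ℤ) : ℤ := if x % 2 = 0 then x / 2 else (3 * x + k) / 2

theorem two_T_even {k x : ℤ} (hx : x % 2 = 0) : 2 * T k x = x := by
  unfold T
  rw [if_pos hx]
  omega

theorem two_T_odd {k x : ℤ} (hk : k % 2 = 1) (hx : ¬ x % 2 = 0) : 2 * T k x = 3 * x + k := by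
  unfold T
  rw [if_neg hx]
  omega

/-- the number of odd terms among the first `n` -/
def oc (k x : ℤ) : ℕ → ℕ
  | 0 => 0
  | n + 1 => oc k x n + (if ((T k)^[n] x) % 2 = 0 then 0 else 1)

theorem oc_le (k x : ℤ) (n : ℕ) : oc k x n ≤ n := by
  induction n with
  | zero => simp [oc]
  | succ n ih =>
    simp only [oc]
    split_ifs <;> omega

theorem oc_add (k x : ℤ) (m n : ℕ) : oc k x (m + n) = oc k x m + oc k ((T k)^[m] x) n := by
  induction n with
  | zero => simp [oc]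
  | succ n ih =>
    rw [← add_assoc]
    simp only [oc]
    rw [ih, add_assoc, ← Function.iterate_add_apply, add_comm n m]

theorem mod_iter {k q : ℤ} (hk : k % 2 = 1) (hq : q ∣ k) (x : ℤ) (n : ℕ) :
    q ∣ 2 ^ n * (T k)^[n] x - 3 ^ oc k x n * x := by
  induction n with
  | zero => simp [oc]
  | succ n ih =>
    rw [Function.iterate_succ_apply']
    simp only [oc]
    set y := (T k)^[n] x with hy
    by_cases h : y % 2 = 0
    · rw [if_pos h, add_zero]
      have e : (2 : ℤ) ^ (n + 1) * T k y = 2 ^ n * (2 * T k y) := by ring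
      rw [e, two_T_even h]
      exact ih
    · rw [if_neg h]
      have e : (2 : ℤ) ^ (n + 1) * T k y = 2 ^ n * (2 * T k y) := by ring
      rw [e, two_T_odd hk h]
      have e2 : (2 : ℤ) ^ n * (3 * y + k) - 3 ^ (oc k x n + 1) * x =
          3 * (2 ^ n * y - 3 ^ oc k x n * x) + k * 2 ^ n := by ring
      rw [e2]
      exact dvd_add (Dvd.dvd.mul_left ih 3) (Dvd.dvd.mul_right hq _)

theorem not_dvd_two {q : ℕ} (hq : q.Prime) (h5 : 5 ≤ q) : ¬ (q : ℤ) ∣ 2 := by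
  intro h
  have := Int.le_of_dvd (by norm_num) h
  omega

theorem not_dvd_three {q : ℕ} (hq : q.Prime) (h5 : 5 ≤ q) : ¬ (q : ℤ) ∣ 3 := by
  intro h
  have := Int.le_of_dvd (by norm_num) h
  omega

theorem not_dvd_iter {k : ℤ} {q : ℕ} (hk : k % 2 = 1) (hp : q.Prime) (h5 : 5 ≤ q) (hq : (q : ℤ) ∣ k)
    {x : ℤ} (hx : ¬ (q : ℤ) ∣ x) (n : ℕ) : ¬ (q : ℤ) ∣ (T k)^[n] x := by
  intro h
  have hpi : Prime (q : ℤ) := Nat.prime_iff_prime_int.1 hp
  have h1 := mod_iter hk hq x n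
  have h2 : (q : ℤ) ∣ 3 ^ oc k x n * x := by
    have := dvd_sub (Dvd.dvd.mul_left h (2 ^ n)) h1
    simpa using this
  rcases hpi.dvd_or_dvd h2 with h3 | h3
  · exact not_dvd_three hp h5 (hpi.dvd_of_dvd_pow h3)
  · exact hx h3

/-- the primes `q ≥ 5` which divide a number `2^p - 3^o`, `1 ≤ p ≤ L`, `o ≤ p` -/
def Bad (L : ℕ) : Set ℕ :=
  {q | q.Prime ∧ 5 ≤ q ∧ ∃ p o : ℕ, 1 ≤ p ∧ p ≤ L ∧ o ≤ p ∧ (q : ℤ) ∣ 2 ^ p - 3 ^ o}

theorem distinct {L : ℕ} {k : ℤ} {q : ℕ} (hk : k % 2 = 1) (hp : q.Prime) (h5 : 5 ≤ q)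
    (hq : (q : ℤ) ∣ k) (hB : q ∉ Bad L) {x : ℤ} (hx : ¬ (q : ℤ) ∣ x) {i j : ℕ} (hij : i < j)
    (hjL : j ≤ i + L) : ¬ (T k)^[i] x ≡ (T k)^[j] x [ZMOD q] := by
  intro hmod
  apply hB
  have hpi : Prime (q : ℤ) := Nat.prime_iff_prime_int.1 hp
  obtain ⟨p, rfl⟩ := Nat.exists_eq_add_of_lt hij
  set y := (T k)^[i] x with hy
  have hyq : ¬ (q : ℤ) ∣ y := not_dvd_iter hk hp h5 hq hx i
  have e1 : (T k)^[i + p + 1] x = (T k)^[p + 1] y := by
    rw [hy, ← Function.iterate_add_apply]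
    congr 1
    omega
  rw [e1] at hmod
  have h1 := mod_iter hk hq y (p + 1)
  have h2 : (q : ℤ) ∣ (T k)^[p + 1] y - y := (Int.modEq_iff_dvd.1 hmod)
  have h3 : (q : ℤ) ∣ (2 ^ (p + 1) - 3 ^ oc k y (p + 1)) * y := by
    have := dvd_sub h1 (Dvd.dvd.mul_left h2 (2 ^ (p + 1)))
    have e : (2 : ℤ) ^ (p + 1) * (T k)^[p + 1] y - 3 ^ oc k y (p + 1) * y -
        2 ^ (p + 1) * ((T k)^[p + 1] y - y) = (2 ^ (p + 1) - 3 ^ oc k y (p + 1)) * y := by ring
    rwa [e] at this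
  rcases hpi.dvd_or_dvd h3 with h4 | h4
  · exact ⟨hp, h5, p + 1, oc k y (p + 1), by omega, by omega, oc_le _ _ _, h4⟩
  · exact absurd h4 hyq

theorem T_mul {k c : ℤ} (hk : k % 2 = 1) (hc : c % 2 = 1) (y : ℤ) : T (c * k) (c * y) = c * T k y := by
  have hck : (c * k) % 2 = 1 := by rw [Int.mul_emod, hc, hk]; norm_num
  by_cases hy : y % 2 = 0
  · have h1 : (c * y) % 2 = 0 := by rw [Int.mul_emod, hy]; simp
    have a1 := two_T_even (k := c * k) h1
    have a2 := two_T_even (k := k) hy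
    have : 2 * T (c * k) (c * y) = 2 * (c * T k y) := by rw [a1]; linear_combination (-c) * a2
    linarith
  · have h1 : ¬ (c * y) % 2 = 0 := by
      have : y % 2 = 1 := by omega
      rw [Int.mul_emod, hc, this]; norm_num
    have a1 := two_T_odd hck h1
    have a2 := two_T_odd hk hy
    have : 2 * T (c * k) (c * y) = 2 * (c * T k y) := by rw [a1]; linear_combination (-c) * a2
    linarith

theorem iter_mul {k c : ℤ} (hk : k % 2 = 1) (hc : c % 2 = 1) (x : ℤ) (n : ℕ) :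
    (T (c * k))^[n] (c * x) = c * (T k)^[n] x := by
  induction n with
  | zero => simp
  | succ n ih => rw [Function.iterate_succ_apply', Function.iterate_succ_apply', ih, T_mul hk hc]

end Pool.Agent.Helper89K9.TK
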