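import Pool.Agent.Helper89K9.TK.Pairs
import Pool.Agent.Helper89K9.TK.Cyc

/-! The set of exceptional primes. -/

set_option autoImplicit false

namespace Pool.Agent.Helper89K9.TK

open Finset

theorem min_word {k x : ℤ} (hk : k % 2 = 1) (hm : Min k x) (hh : 1000 * |(k : ℝ)| < |(x : ℝ)|) (n : ℕ) :
    (2 : ℝ) ^ n ≤ 3.001 ^ oc k x n := by
  have hx0 : 0 < |(x : ℝ)| := lt_of_le_of_lt (by positivity) hh
  have g := grow hk (x := x) n (fun i _ => (hh.le).trans (hm i))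
  have g3 : (2 : ℝ) ^ n * |(x : ℝ)| ≤ 3.001 ^ oc k x n * |(x : ℝ)| :=
    (mul_le_mul_of_nonneg_left (hm n) (by positivity)).trans g
  exact le_of_mul_le_mul_right g3 hx0

/-- the length allowed in the block `2 ^ i ≤ q < 2 ^ (i+1)` -/
noncomputable def LL (η : ℝ) (i : ℕ) : ℕ := ⌊(2 : ℝ) ^ (((i : ℝ) + 1) * ((1 - η) / 3))⌋₊

open Classical in
/-- high minimal points -/
noncomputable def HS (i j q : ℕ) : Finset ℤ :=
  (Finset.Icc (-(2 ^ (i + 1 + j) : ℤ)) (2 ^ (i + 1 + j))).filter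
    (fun x => ¬ (q : ℤ) ∣ x ∧ Min q x ∧ 1000 * (q : ℝ) < |(x : ℝ)|)

open Classical in
/-- failing points -/
noncomputable def FS (i q : ℕ) : Finset ℤ :=
  (Finset.Icc (-(2 ^ (i + 11) : ℤ)) (2 ^ (i + 11))).filter
    (fun x => ¬ (q : ℤ) ∣ x ∧ Fail q (2 * i + 14) x)

/-- the block -/
def Blk (i : ℕ) : Set ℕ := {q | q.Prime ∧ q % 2 = 1 ∧ 2 ^ i ≤ q ∧ q < 2 ^ (i + 1)}

theorem blk_finite (i : ℕ) : (Blk i).Finite :=
  (Finset.finite_toSet (range (2 ^ (i + 1)))).subset (fun q hq => by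
    rw [Finset.mem_coe, Finset.mem_range]
    exact hq.2.2.2)

def ExcB (η : ℝ) (i : ℕ) : Set ℕ := Blk i ∩ Bad (LL η i)

def ExcH (η : ℝ) (i : ℕ) : Set ℕ :=
  {q | q ∈ Blk i ∧ ∃ j : ℕ, (2 : ℝ) ^ ((902 / 1000 + η) * i + (952 / 1000) * j) < (HS i j q).card}

def ExcF (η : ℝ) (i : ℕ) : Set ℕ :=
  {q | q ∈ Blk i ∧ (2 : ℝ) ^ ((902 / 1000 + η) * i) < (FS i q).card}

theorem card_B {η : ℝ} (hη : 0 < η) (i : ℕ) :
    ((ExcB η i).ncard : ℝ) ≤ 2 * 2 ^ ((1 - η) * i) := by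
  have h1 : (ExcB η i).ncard ≤ (Bad (LL η i)).ncard :=
    Set.ncard_le_ncard Set.inter_subset_right (bad_finite _)
  have h2 : ((ExcB η i).ncard : ℝ) ≤ ((LL η i : ℕ) : ℝ) ^ 3 := by
    exact_mod_cast h1.trans (bad_card _)
  have h3 : ((LL η i : ℕ) : ℝ) ≤ (2 : ℝ) ^ (((i : ℝ) + 1) * ((1 - η) / 3)) :=
    Nat.floor_le (by positivity)
  calc ((ExcB η i).ncard : ℝ) ≤ ((LL η i : ℕ) : ℝ) ^ 3 := h2
    _ ≤ ((2 : ℝ) ^ (((i : ℝ) + 1) * ((1 - η) / 3))) ^ 3 := pow_le_pow_left₀ (Nat.cast_nonneg _) h3 3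
    _ = 2 ^ (1 - η) * 2 ^ ((1 - η) * i) := by
      rw [← Real.rpow_natCast, ← Real.rpow_mul (by norm_num), ← Real.rpow_add (by norm_num)]
      congr 1
      push_cast
      ring
    _ ≤ 2 ^ (1 : ℝ) * 2 ^ ((1 - η) * i) := by
      apply mul_le_mul_of_nonneg_right _ (by positivity)
      exact Real.rpow_le_rpow_of_exponent_le (by norm_num) (by linarith)
    _ = 2 * 2 ^ ((1 - η) * i) := by rw [Real.rpow_one]

/-- `2 ^ (-1/1000)` -/
noncomputable def rho : ℝ := 2 ^ (-(1 / 1000) : ℝ)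

theorem rho_pos : 0 < rho := by unfold rho; positivity

theorem rho_lt : rho < 1 := by
  unfold rho
  exact Real.rpow_lt_one_of_one_lt_of_neg (by norm_num) (by norm_num)

theorem card_Hj {η : ℝ} (i j : ℕ) (Q : Finset ℕ) (hQ : ∀ q ∈ Q, q ∈ Blk i ∧
    (2 : ℝ) ^ ((902 / 1000 + η) * i + (952 / 1000) * j) < (HS i j q).card) :
    (Q.card : ℝ) ≤ 16 * 2 ^ ((1 - η) * i) * rho ^ j := by
  classical
  have h := card_exc (c := 1) (Y := 2 ^ (i + 1 + j)) (K := 2 ^ (i + 1))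
    (lam := (2 : ℝ) ^ ((902 / 1000 + η) * i + (952 / 1000) * j)) le_rfl (2 * i + j + 4) (by
      have e : (2 : ℝ) * 2 ^ (i + 1 + j) * 2 ^ (i + 1) = 2 ^ (2 * i + j + 3) := by ring
      rw [e]
      exact pow_lt_pow_right₀ (by norm_num) (by omega)) (by positivity) Q (HS i j) (by
      intro q hq
      obtain ⟨⟨h1, h2, h3, h4⟩, -⟩ := hQ q hq
      refine ⟨h1, h2, ?_⟩
      exact_mod_cast h4.le) (by
      intro q hq x hx
      obtain ⟨⟨h1, h2, h3, h4⟩, -⟩ := hQ q hq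
      unfold HS at hx
      rw [Finset.mem_filter, Finset.mem_Icc] at hx
      obtain ⟨⟨a1, a2⟩, a3, a4, a5⟩ := hx
      refine ⟨a3, ?_, ?_⟩
      · rw [abs_le]
        constructor
        · exact_mod_cast a1
        · exact_mod_cast a2
      · rw [one_mul]
        apply min_word (by omega) a4
        push_cast
        rw [Nat.abs_cast]
        exact a5) (fun q hq => (hQ q hq).2.le)
  refine h.trans ?_
  rw [one_mul, div_le_iff₀ (by positivity)]
  have e1 : (rho : ℝ) ^ j = 2 ^ (-(1 / 1000 : ℝ) * j) := by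
    unfold rho
    rw [← Real.rpow_natCast, ← Real.rpow_mul (by norm_num)]
  rw [e1]
  have e2 : (16 : ℝ) * 2 ^ ((1 - η) * i) * 2 ^ (-(1 / 1000 : ℝ) * j) *
      2 ^ ((902 / 1000 + η) * i + (952 / 1000) * j) =
      2 ^ ((4 : ℝ) + (1 - η) * i + (-(1 / 1000 : ℝ) * j) + ((902 / 1000 + η) * i + (952 / 1000) * j)) := by
    have e16 : (16 : ℝ) = 2 ^ (4 : ℝ) := by norm_num
    rw [e16, ← Real.rpow_add (by norm_num), ← Real.rpow_add (by norm_num),
      ← Real.rpow_add (by norm_num)]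
  rw [e2]
  apply Real.rpow_le_rpow_of_exponent_le (by norm_num)
  push_cast
  ring_nf
  have : (0 : ℝ) ≤ i := Nat.cast_nonneg i
  linarith

theorem card_H {η : ℝ} (i : ℕ) :
    ((ExcH η i).ncard : ℝ) ≤ 16 * 2 ^ ((1 - η) * i) * (1 - rho)⁻¹ := by
  classical
  have hfin : (ExcH η i).Finite := (blk_finite i).subset (fun q hq => hq.1)
  have hex : ∀ q : ℕ, ∃ j : ℕ, q ∈ ExcH η i →
      (2 : ℝ) ^ ((902 / 1000 + η) * i + (952 / 1000) * j) < (HS i j q).card := by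
    intro q
    by_cases h : q ∈ ExcH η i
    · obtain ⟨j, hj⟩ := h.2
      exact ⟨j, fun _ => hj⟩
    · exact ⟨0, fun h' => absurd h' h⟩
  choose j hj using hex
  set Q := hfin.toFinset with hQ
  have hcard : (ExcH η i).ncard = Q.card := Set.ncard_eq_toFinset_card _ hfin
  rw [hcard]
  set J := Q.sup j + 1 with hJ
  have h1 : Q.card = ∑ t ∈ range J, (Q.filter (fun q => j q = t)).card := by
    apply Finset.card_eq_sum_card_fiberwise
    intro q hq
    rw [Finset.coe_range, Set.mem_Iio]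
    have := Finset.le_sup (f := j) hq
    omega
  have h2 : ∀ t ∈ range J, ((Q.filter (fun q => j q = t)).card : ℝ) ≤
      16 * 2 ^ ((1 - η) * i) * rho ^ t := by
    intro t _
    apply card_Hj
    intro q hq
    rw [Finset.mem_filter, hQ, Set.Finite.mem_toFinset] at hq
    obtain ⟨hq1, rfl⟩ := hq
    exact ⟨hq1.1, hj q hq1⟩
  rw [h1]
  push_cast
  refine (Finset.sum_le_sum h2).trans ?_
  rw [← Finset.mul_sum]
  apply mul_le_mul_of_nonneg_left _ (by positivity)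
  have hr1 : 0 < 1 - rho := by linarith [rho_lt]
  rw [geom_sum_eq (ne_of_lt rho_lt)]
  have : (rho ^ J - 1) / (rho - 1) = (1 - rho ^ J) * (1 - rho)⁻¹ := by
    rw [← div_eq_mul_inv, ← neg_div_neg_eq]
    ring_nf
  rw [this]
  have h3 : 0 ≤ rho ^ J := by have := rho_pos; positivity
  calc (1 - rho ^ J) * (1 - rho)⁻¹ ≤ 1 * (1 - rho)⁻¹ :=
        mul_le_mul_of_nonneg_right (by linarith) (by positivity)
    _ = (1 - rho)⁻¹ := one_mul _

theorem card_F {η : ℝ} (i : ℕ) : ((ExcF η i).ncard : ℝ) ≤ 2 ^ 16 * 2 ^ ((1 - η) * i) := by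
  classical
  have hfin : (ExcF η i).Finite := (blk_finite i).subset (fun q hq => hq.1)
  set Q := hfin.toFinset with hQ
  have hcard : (ExcF η i).ncard = Q.card := Set.ncard_eq_toFinset_card _ hfin
  rw [hcard]
  have hQm : ∀ q ∈ Q, q ∈ ExcF η i := by
    intro q hq
    rwa [hQ, Set.Finite.mem_toFinset] at hq
  have h := card_exc (c := 4) (Y := 2 ^ (i + 11)) (K := 2 ^ (i + 1))
    (lam := (2 : ℝ) ^ ((902 / 1000 + η) * i)) (by norm_num) (2 * i + 14) (by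
      have e : (2 : ℝ) * 2 ^ (i + 11) * 2 ^ (i + 1) = 2 ^ (2 * i + 13) := by ring
      rw [e]
      exact pow_lt_pow_right₀ (by norm_num) (by omega)) (by positivity) Q (FS i) (by
      intro q hq
      obtain ⟨⟨h1, h2, h3, h4⟩, -⟩ := hQm q hq
      refine ⟨h1, h2, ?_⟩
      exact_mod_cast h4.le) (by
      intro q hq x hx
      obtain ⟨⟨h1, h2, h3, h4⟩, -⟩ := hQm q hq
      unfold FS at hx
      rw [Finset.mem_filter, Finset.mem_Icc] at hx
      obtain ⟨⟨a1, a2⟩, a3, a4⟩ := hx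
      refine ⟨a3, ?_, ?_⟩
      · rw [abs_le]
        constructor
        · exact_mod_cast a1
        · exact_mod_cast a2
      · exact fail_word (by omega) (2 * i + 13) a4) (fun q hq => (hQm q hq).2.le)
  refine h.trans ?_
  rw [div_le_iff₀ (by positivity)]
  have e2 : (2 : ℝ) ^ 16 * 2 ^ ((1 - η) * i) * 2 ^ ((902 / 1000 + η) * i) =
      2 ^ ((16 : ℝ) + (1 - η) * i + (902 / 1000 + η) * i) := by
    have e16 : (2 : ℝ) ^ 16 = 2 ^ (16 : ℝ) := by norm_num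
    rw [e16, ← Real.rpow_add (by norm_num), ← Real.rpow_add (by norm_num)]
  have e3 : (4 : ℝ) * 2 ^ ((951 / 1000 : ℝ) * ((2 * i + 14 : ℕ) : ℝ)) =
      2 ^ ((2 : ℝ) + (951 / 1000 : ℝ) * ((2 * i + 14 : ℕ) : ℝ)) := by
    rw [Real.rpow_add (by norm_num)]
    norm_num
  rw [e2, e3]
  apply Real.rpow_le_rpow_of_exponent_le (by norm_num)
  push_cast
  ring_nf
  have : (0 : ℝ) ≤ i := Nat.cast_nonneg i
  linarith

/-- all exceptions -/
def Exc (η : ℝ) : Set ℕ := ⋃ i : ℕ, (ExcB η i ∪ ExcH η i ∪ ExcF η i)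

theorem exc_card : ∃ C : ℝ, 0 < C ∧ ∀ η : ℝ, 0 < η → η ≤ 1 / 2 → ∀ K : ℕ, 1 ≤ K →
    ((Exc η ∩ Set.Iic K).ncard : ℝ) ≤ C * (K : ℝ) ^ (1 - η) := by
  classical
  have hr1 : 0 < 1 - rho := by linarith [rho_lt]
  refine ⟨4 * (2 + 16 * (1 - rho)⁻¹ + 2 ^ 16), by positivity, ?_⟩
  intro η hη hη2 K hK
  set C1 : ℝ := 2 + 16 * (1 - rho)⁻¹ + 2 ^ 16 with hC1
  have hC1pos : 0 < C1 := by positivity
  set I := Nat.log 2 K with hI
  have hfinE : ∀ i, (ExcB η i ∪ ExcH η i ∪ ExcF η i).Finite := fun i =>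
    (blk_finite i).subset (by
      rintro q ((hq | hq) | hq)
      · exact hq.1
      · exact hq.1
      · exact hq.1)
  have hblk : ∀ i q, q ∈ ExcB η i ∪ ExcH η i ∪ ExcF η i → q ∈ Blk i := by
    rintro i q ((hq | hq) | hq)
    · exact hq.1
    · exact hq.1
    · exact hq.1
  have hsub : Exc η ∩ Set.Iic K ⊆ ((range (I + 1)).biUnion (fun i => (hfinE i).toFinset) : Finset ℕ) := by
    rintro q ⟨hq, hqK⟩
    unfold Exc at hq
    rw [Set.mem_iUnion] at hq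
    obtain ⟨i, hi⟩ := hq
    rw [Finset.mem_coe, Finset.mem_biUnion]
    refine ⟨i, ?_, ?_⟩
    · rw [Finset.mem_range]
      have h1 : 2 ^ i ≤ K := (hblk i q hi).2.2.1.trans hqK
      have := Nat.le_log_of_pow_le (by norm_num) h1
      omega
    · rw [Set.Finite.mem_toFinset]
      exact hi
  have hE : ∀ i, ((ExcB η i ∪ ExcH η i ∪ ExcF η i).ncard : ℝ) ≤ C1 * 2 ^ ((1 - η) * i) := by
    intro i
    have h1 : (ExcB η i ∪ ExcH η i ∪ ExcF η i).ncard ≤
        (ExcB η i).ncard + (ExcH η i).ncard + (ExcF η i).ncard :=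
      (Set.ncard_union_le _ _).trans (by
        have := Set.ncard_union_le (ExcB η i) (ExcH η i)
        omega)
    have h2 : ((ExcB η i ∪ ExcH η i ∪ ExcF η i).ncard : ℝ) ≤
        (ExcB η i).ncard + (ExcH η i).ncard + (ExcF η i).ncard := by exact_mod_cast h1
    have hB := card_B hη i
    have hH := card_H (η := η) i
    have hF := card_F (η := η) i
    calc _ ≤ _ := h2
      _ ≤ 2 * 2 ^ ((1 - η) * i) + 16 * 2 ^ ((1 - η) * i) * (1 - rho)⁻¹ +
          2 ^ 16 * 2 ^ ((1 - η) * i) := by linarith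
      _ = C1 * 2 ^ ((1 - η) * i) := by rw [hC1]; ring
  have h3 : ((Exc η ∩ Set.Iic K).ncard : ℝ) ≤ ∑ i ∈ range (I + 1), C1 * 2 ^ ((1 - η) * i) := by
    have a1 : (Exc η ∩ Set.Iic K).ncard ≤
        ∑ i ∈ range (I + 1), (ExcB η i ∪ ExcH η i ∪ ExcF η i).ncard := by
      refine (Set.ncard_le_ncard hsub (Finset.finite_toSet _)).trans ?_
      rw [Set.ncard_coe_finset]
      refine Finset.card_biUnion_le.trans ?_
      apply Finset.sum_le_sum
      intro i _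
      rw [Set.ncard_eq_toFinset_card _ (hfinE i)]
    calc ((Exc η ∩ Set.Iic K).ncard : ℝ) ≤
        ∑ i ∈ range (I + 1), ((ExcB η i ∪ ExcH η i ∪ ExcF η i).ncard : ℝ) := by exact_mod_cast a1
      _ ≤ _ := Finset.sum_le_sum (fun i _ => hE i)
  refine h3.trans ?_
  rw [← Finset.mul_sum]
  -- geometric sum
  set r : ℝ := 2 ^ (1 - η) with hr
  have hr2 : (1.4 : ℝ) ≤ r := by
    have b1 : (2 : ℝ) ^ (1 / 2 : ℝ) ≤ r :=
      Real.rpow_le_rpow_of_exponent_le (by norm_num) (by linarith)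
    have b2 : (1.4 : ℝ) ≤ 2 ^ (1 / 2 : ℝ) := by
      rw [← Real.sqrt_eq_rpow]
      apply Real.le_sqrt_of_sq_le
      norm_num
    linarith
  have h4 : ∀ n : ℕ, ∑ i ∈ range (n + 1), (2 : ℝ) ^ ((1 - η) * i) ≤ 4 * r ^ n := by
    intro n
    induction n with
    | zero => norm_num
    | succ n ih =>
      rw [Finset.sum_range_succ]
      have e : (2 : ℝ) ^ ((1 - η) * ((n + 1 : ℕ) : ℝ)) = r * r ^ n := by
        rw [hr, ← Real.rpow_natCast, ← Real.rpow_mul (by norm_num), ← Real.rpow_add (by norm_num)]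
        congr 1
        push_cast
        ring
      rw [e, pow_succ]
      have hpos : 0 < r ^ n := by positivity
      nlinarith
  have h5 : r ^ I ≤ (K : ℝ) ^ (1 - η) := by
    have e : r ^ I = ((2 : ℝ) ^ I) ^ (1 - η) := by
      rw [hr, ← Real.rpow_natCast, ← Real.rpow_natCast, ← Real.rpow_mul (by norm_num),
        ← Real.rpow_mul (by norm_num), mul_comm]
    rw [e]
    apply Real.rpow_le_rpow (by positivity) _ (by linarith)
    have : 2 ^ I ≤ K := Nat.pow_log_le_self 2 (by omega)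
    exact_mod_cast this
  calc C1 * ∑ i ∈ range (I + 1), (2 : ℝ) ^ ((1 - η) * i) ≤ C1 * (4 * r ^ I) :=
        mul_le_mul_of_nonneg_left (h4 I) hC1pos.le
    _ ≤ C1 * (4 * (K : ℝ) ^ (1 - η)) := by
        apply mul_le_mul_of_nonneg_left _ hC1pos.le
        linarith
    _ = 4 * C1 * (K : ℝ) ^ (1 - η) := by ring

end Pool.Agent.Helper89K9.TK
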