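import Pool.Agent.Helper89K9.TK.Words

/-! Few classes of merging orbits. -/

set_option autoImplicit false

namespace Pool.Agent.Helper89K9.TK

open Finset

/-- the orbits of `x` and `y` merge -/
def Merge (k x y : ℤ) : Prop := ∃ i j : ℕ, (T k)^[i] x = (T k)^[j] y

/-- at most `B` classes of merging orbits meet `[-X,X]` -/
def FewClasses (k : ℤ) (X B : ℝ) : Prop :=
  ∀ S : Finset ℤ, (∀ x ∈ S, |(x : ℝ)| ≤ X) → (∀ x ∈ S, ∀ y ∈ S, Merge k x y → x = y) →
    (S.card : ℝ) ≤ B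

/-- `x` is a smallest element of its orbit -/
def Min (k x : ℤ) : Prop := ∀ j : ℕ, |(x : ℝ)| ≤ |(((T k)^[j] x : ℤ) : ℝ)|

theorem exists_min (k x : ℤ) : ∃ i, Min k ((T k)^[i] x) ∧ |(((T k)^[i] x : ℤ) : ℝ)| ≤ |(x : ℝ)| := by
  classical
  have hne : ∃ n : ℕ, ∃ i, ((T k)^[i] x).natAbs = n := ⟨_, 0, rfl⟩
  obtain ⟨i, hi⟩ := Nat.find_spec hne
  have key : ∀ j, ((T k)^[i] x).natAbs ≤ ((T k)^[j] x).natAbs := by
    intro j
    rw [hi]
    exact Nat.find_min' hne ⟨j, rfl⟩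
  have key' : ∀ j, |(((T k)^[i] x : ℤ) : ℝ)| ≤ |(((T k)^[j] x : ℤ) : ℝ)| := by
    intro j
    have h := key j
    have e : ∀ z : ℤ, |(z : ℝ)| = ((z.natAbs : ℕ) : ℝ) := by
      intro z
      rw [Nat.cast_natAbs]
      push_cast
      rfl
    rw [e, e]
    exact_mod_cast h
  refine ⟨i, ?_, key' 0⟩
  intro j
  have := key' (j + i)
  rwa [Function.iterate_add_apply] at this

theorem reduce {k : ℤ} {X B : ℝ} (h : ∀ S : Finset ℤ, (∀ x ∈ S, |(x : ℝ)| ≤ X) →
    (∀ x ∈ S, ∀ y ∈ S, Merge k x y → x = y) → (∀ x ∈ S, Min k x) → (S.card : ℝ) ≤ B) :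
    FewClasses k X B := by
  classical
  intro S hS hm
  choose i hi1 hi2 using exists_min k
  have hmm : ∀ x y, Merge k ((T k)^[i x] x) ((T k)^[i y] y) → Merge k x y := by
    rintro x y ⟨a, b, hab⟩
    exact ⟨a + i x, b + i y, by rw [Function.iterate_add_apply, Function.iterate_add_apply, hab]⟩
  have hinj : Set.InjOn (fun x => (T k)^[i x] x) (S : Set ℤ) := by
    intro x hx y hy hxy
    apply hm x hx y hy
    apply hmm
    exact ⟨0, 0, hxy⟩
  rw [← Finset.card_image_of_injOn hinj]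
  apply h
  · intro z hz
    rw [Finset.mem_image] at hz
    obtain ⟨x, hx, rfl⟩ := hz
    exact (hi2 x).trans (hS x hx)
  · intro z hz w hw hzw
    rw [Finset.mem_image] at hz hw
    obtain ⟨x, hx, rfl⟩ := hz
    obtain ⟨y, hy, rfl⟩ := hw
    rw [hm x hx y hy (hmm x y hzw)]
  · intro z hz
    rw [Finset.mem_image] at hz
    obtain ⟨x, hx, rfl⟩ := hz
    exact hi1 x

theorem grow_step_even {k y : ℤ} (hy : y % 2 = 0) : 2 * |((T k y : ℤ) : ℝ)| = |(y : ℝ)| := by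
  have h := two_T_even (k := k) hy
  have h2 : 2 * ((T k y : ℤ) : ℝ) = (y : ℝ) := by exact_mod_cast h
  rw [← h2, abs_mul]
  norm_num

theorem grow_step_odd {k y : ℤ} (hk : k % 2 = 1) (hy : ¬ y % 2 = 0) :
    2 * |((T k y : ℤ) : ℝ)| ≤ 3 * |(y : ℝ)| + |(k : ℝ)| := by
  have h := two_T_odd hk hy
  have h2 : 2 * ((T k y : ℤ) : ℝ) = 3 * (y : ℝ) + k := by exact_mod_cast h
  have h3 : 2 * |((T k y : ℤ) : ℝ)| = |3 * (y : ℝ) + k| := by
    rw [← h2, abs_mul]
    norm_num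
  rw [h3]
  refine (abs_add_le _ _).trans ?_
  rw [abs_mul]
  norm_num

theorem grow {k x : ℤ} (hk : k % 2 = 1) (n : ℕ)
    (h : ∀ i < n, 1000 * |(k : ℝ)| ≤ |(((T k)^[i] x : ℤ) : ℝ)|) :
    (2 : ℝ) ^ n * |(((T k)^[n] x : ℤ) : ℝ)| ≤ 3.001 ^ oc k x n * |(x : ℝ)| := by
  induction n with
  | zero => simp [oc]
  | succ n ih =>
    have h1 := ih (fun i hi => h i (by omega))
    have h2 := h n (by omega)
    rw [Function.iterate_succ_apply']
    simp only [oc]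
    set y := (T k)^[n] x with hy
    have e : (2 : ℝ) ^ (n + 1) * |((T k y : ℤ) : ℝ)| = 2 ^ n * (2 * |((T k y : ℤ) : ℝ)|) := by ring
    rw [e]
    by_cases hc : y % 2 = 0
    · rw [if_pos hc, add_zero, grow_step_even hc]
      exact h1
    · rw [if_neg hc]
      have h3 := grow_step_odd hk hc
      have h4 : 2 * |((T k y : ℤ) : ℝ)| ≤ 3.001 * |(y : ℝ)| := by linarith
      calc (2 : ℝ) ^ n * (2 * |((T k y : ℤ) : ℝ)|) ≤ 2 ^ n * (3.001 * |(y : ℝ)|) :=
            mul_le_mul_of_nonneg_left h4 (by positivity)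
        _ = 3.001 * (2 ^ n * |(y : ℝ)|) := by ring
        _ ≤ 3.001 * (3.001 ^ oc k x n * |(x : ℝ)|) := mul_le_mul_of_nonneg_left h1 (by norm_num)
        _ = 3.001 ^ (oc k x n + 1) * |(x : ℝ)| := by ring

/-- high minimal points -/
theorem high_count {k : ℤ} (hk : k % 2 = 1) {X : ℝ} (S : Finset ℤ) (hS : ∀ x ∈ S, |(x : ℝ)| ≤ X)
    (hm : ∀ x ∈ S, Min k x) (hh : ∀ x ∈ S, 1000 * |(k : ℝ)| < |(x : ℝ)|) (hX : 1 ≤ X) :
    (S.card : ℝ) ≤ 5 * X ^ (951 / 1000 : ℝ) := by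
  set n := Nat.log 2 ⌊X⌋₊ with hn
  have hX0 : 0 < X := by linarith
  have hfl : 1 ≤ ⌊X⌋₊ := Nat.le_floor (by simpa using hX)
  have h1 : (2 : ℝ) ^ n ≤ X := by
    have : 2 ^ n ≤ ⌊X⌋₊ := Nat.pow_log_le_self 2 (by omega)
    calc (2 : ℝ) ^ n ≤ (⌊X⌋₊ : ℝ) := by exact_mod_cast this
      _ ≤ X := Nat.floor_le hX0.le
  have h2 : X ≤ 2 ^ (n + 1) := by
    have : ⌊X⌋₊ < 2 ^ (n + 1) := Nat.lt_pow_succ_log_self (by norm_num) _
    have h3 : ⌊X⌋₊ + 1 ≤ 2 ^ (n + 1) := this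
    calc X ≤ (⌊X⌋₊ : ℝ) + 1 := (Nat.lt_floor_add_one X).le
      _ ≤ 2 ^ (n + 1) := by exact_mod_cast h3
  have h3 := card_many_odd hk (c := 1) (Y := 2 ^ (n + 1)) le_rfl (by positivity) n S
    (fun x hx => (hS x hx).trans h2) (by
      intro x hx
      have hx0 : 0 < |(x : ℝ)| := lt_of_le_of_lt (by positivity) (hh x hx)
      have g := grow hk (x := x) n (fun i _ => ((hh x hx).le).trans (hm x hx i))
      have g2 := hm x hx n
      have g3 : (2 : ℝ) ^ n * |(x : ℝ)| ≤ 3.001 ^ oc k x n * |(x : ℝ)| :=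
        (mul_le_mul_of_nonneg_left g2 (by positivity)).trans g
      rw [one_mul]
      exact le_of_mul_le_mul_right g3 hx0)
  have h4 : 2 * (2 : ℝ) ^ (n + 1) / 2 ^ n + 1 = 5 := by
    rw [pow_succ]
    have : (2 : ℝ) ^ n ≠ 0 := by positivity
    field_simp
    norm_num
  rw [h4, one_mul] at h3
  have h5 : (2 : ℝ) ^ ((951 / 1000 : ℝ) * n) ≤ X ^ (951 / 1000 : ℝ) := by
    have : (2 : ℝ) ^ ((951 / 1000 : ℝ) * n) = ((2 : ℝ) ^ n) ^ (951 / 1000 : ℝ) := by
      rw [← Real.rpow_natCast, ← Real.rpow_mul (by norm_num), mul_comm]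
    rw [this]
    exact Real.rpow_le_rpow (by positivity) h1 (by norm_num)
  linarith

/-- the window -/
def win (k : ℤ) : ℕ := Nat.log 2 k.natAbs + 1

/-- a low point which does not come back soon -/
def Fail (k : ℤ) (w : ℕ) (z : ℤ) : Prop := |(z : ℝ)| ≤ 1000 * |(k : ℝ)| ∧
  ∀ j, 1 ≤ j → j ≤ w → 1000 * |(k : ℝ)| < |(((T k)^[j] z : ℤ) : ℝ)|

theorem fail_word {k z : ℤ} (hk : k % 2 = 1) (l : ℕ) (h : Fail k (l + 1) z) :
    (2 : ℝ) ^ (l + 1) ≤ 4 * 3.001 ^ oc k z (l + 1) := by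
  obtain ⟨hz1, hz2⟩ := h
  have hk0 : 0 < |(k : ℝ)| := by
    have : 1 ≤ |k| := Int.one_le_abs (by omega)
    have h2 : (1 : ℝ) ≤ |(k : ℝ)| := by exact_mod_cast this
    linarith
  have hy : |((T k z : ℤ) : ℝ)| ≤ 2 * (1000 * |(k : ℝ)|) := by
    by_cases hc : z % 2 = 0
    · have := grow_step_even (k := k) hc
      linarith
    · have := grow_step_odd hk hc
      linarith
  have g := grow hk (x := T k z) l (fun i hi => by
    have := hz2 (i + 1) (by omega) (by omega)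
    rw [Function.iterate_succ_apply] at this
    exact this.le)
  have g2 := hz2 (l + 1) (by omega) (by omega)
  rw [Function.iterate_succ_apply] at g2
  have hoc : oc k (T k z) l ≤ oc k z (l + 1) := by
    have := oc_add k z 1 l
    rw [add_comm 1 l] at this
    simp only [Function.iterate_one] at this
    omega
  have hp : (0 : ℝ) < 2 ^ l := by positivity
  have g3 : (2 : ℝ) ^ l * (1000 * |(k : ℝ)|) ≤ (2 * 3.001 ^ oc k (T k z) l) * (1000 * |(k : ℝ)|) := by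
    calc (2 : ℝ) ^ l * (1000 * |(k : ℝ)|) ≤ 2 ^ l * |(((T k)^[l] (T k z) : ℤ) : ℝ)| :=
          mul_le_mul_of_nonneg_left g2.le hp.le
      _ ≤ 3.001 ^ oc k (T k z) l * |((T k z : ℤ) : ℝ)| := g
      _ ≤ 3.001 ^ oc k (T k z) l * (2 * (1000 * |(k : ℝ)|)) :=
          mul_le_mul_of_nonneg_left hy (by positivity)
      _ = _ := by ring
  have g4 : (2 : ℝ) ^ l ≤ 2 * 3.001 ^ oc k (T k z) l := le_of_mul_le_mul_right g3 (by positivity)
  have g5 : (3.001 : ℝ) ^ oc k (T k z) l ≤ 3.001 ^ oc k z (l + 1) :=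
    pow_le_pow_right₀ (by norm_num) hoc
  rw [pow_succ]
  linarith

theorem abs_k {k : ℤ} (hk : k % 2 = 1) : 1 ≤ |(k : ℝ)| := by
  have : 1 ≤ |k| := Int.one_le_abs (by omega)
  exact_mod_cast this

theorem natAbs_real (k : ℤ) : ((k.natAbs : ℕ) : ℝ) = |(k : ℝ)| := by
  rw [Nat.cast_natAbs]
  push_cast
  rfl

theorem fail_count {k : ℤ} (hk : k % 2 = 1) (F : Finset ℤ) (hF : ∀ z ∈ F, Fail k (win k) z) :
    (F.card : ℝ) ≤ 16008 * |(k : ℝ)| ^ (951 / 1000 : ℝ) := by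
  set l := Nat.log 2 k.natAbs with hl
  have hk1 := abs_k hk
  have hk0 : 0 < |(k : ℝ)| := by linarith
  have hkn : k.natAbs ≠ 0 := by omega
  have h1 : (2 : ℝ) ^ l ≤ |(k : ℝ)| := by
    have : 2 ^ l ≤ k.natAbs := Nat.pow_log_le_self 2 hkn
    rw [← natAbs_real]
    exact_mod_cast this
  have h2 : |(k : ℝ)| ≤ 2 ^ (l + 1) := by
    have : k.natAbs < 2 ^ (l + 1) := Nat.lt_pow_succ_log_self (by norm_num) _
    rw [← natAbs_real]
    exact_mod_cast this.le
  have h3 := card_many_odd hk (c := 4) (Y := 1000 * |(k : ℝ)|) (by norm_num) (by positivity) (l + 1) F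
    (fun z hz => (hF z hz).1) (fun z hz => fail_word hk l (hF z hz))
  have h4 : 2 * (1000 * |(k : ℝ)|) / 2 ^ (l + 1) + 1 ≤ 2001 := by
    have : 2 * (1000 * |(k : ℝ)|) / 2 ^ (l + 1) ≤ 2000 := by
      rw [div_le_iff₀ (by positivity)]
      linarith
    linarith
  have h5 : (2 : ℝ) ^ ((951 / 1000 : ℝ) * ((l + 1 : ℕ) : ℝ)) ≤ 2 * |(k : ℝ)| ^ (951 / 1000 : ℝ) := by
    have e : (2 : ℝ) ^ ((951 / 1000 : ℝ) * ((l + 1 : ℕ) : ℝ)) =
        2 ^ (951 / 1000 : ℝ) * ((2 : ℝ) ^ l) ^ (951 / 1000 : ℝ) := by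
      rw [← Real.rpow_natCast 2 l, ← Real.rpow_mul (by norm_num), ← Real.rpow_add (by norm_num)]
      congr 1
      push_cast
      ring
    rw [e]
    have e1 : (2 : ℝ) ^ (951 / 1000 : ℝ) ≤ 2 := by
      calc (2 : ℝ) ^ (951 / 1000 : ℝ) ≤ 2 ^ (1 : ℝ) :=
            Real.rpow_le_rpow_of_exponent_le (by norm_num) (by norm_num)
        _ = 2 := Real.rpow_one 2
    exact mul_le_mul e1 (Real.rpow_le_rpow (by positivity) h1 (by norm_num)) (by positivity)
      (by norm_num)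
  calc (F.card : ℝ) ≤ 4 * 2 ^ ((951 / 1000 : ℝ) * ((l + 1 : ℕ) : ℝ)) *
        (2 * (1000 * |(k : ℝ)|) / 2 ^ (l + 1) + 1) := h3
    _ ≤ 4 * (2 * |(k : ℝ)| ^ (951 / 1000 : ℝ)) * 2001 :=
      mul_le_mul (mul_le_mul_of_nonneg_left h5 (by norm_num)) h4 (by positivity) (by positivity)
    _ = 16008 * |(k : ℝ)| ^ (951 / 1000 : ℝ) := by ring

/-- low times come back -/
theorem low_times {k x : ℤ} {w : ℕ} (hx : |(x : ℝ)| ≤ 1000 * |(k : ℝ)|)
    (hnf : ∀ i, ¬ Fail k w ((T k)^[i] x)) :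
    ∃ a : ℕ → ℕ, StrictMono a ∧ (∀ n, a n ≤ n * w) ∧
      ∀ n, |(((T k)^[a n] x : ℤ) : ℝ)| ≤ 1000 * |(k : ℝ)| := by
  classical
  have h1 : ∀ i : ℕ, ∃ j : ℕ, |(((T k)^[i] x : ℤ) : ℝ)| ≤ 1000 * |(k : ℝ)| →
      (i < j ∧ j ≤ i + w ∧ |(((T k)^[j] x : ℤ) : ℝ)| ≤ 1000 * |(k : ℝ)|) := by
    intro i
    by_cases hi : |(((T k)^[i] x : ℤ) : ℝ)| ≤ 1000 * |(k : ℝ)|
    · have h2 := hnf i
      unfold Fail at h2
      push Not at h2
      obtain ⟨j, hj1, hj2, hj3⟩ := h2 hi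
      refine ⟨j + i, fun _ => ⟨by omega, by omega, ?_⟩⟩
      rwa [Function.iterate_add_apply]
    · exact ⟨0, fun h => absurd h hi⟩
  choose f hf using h1
  have hlow : ∀ n, |(((T k)^[f^[n] 0] x : ℤ) : ℝ)| ≤ 1000 * |(k : ℝ)| := by
    intro n
    induction n with
    | zero => simpa using hx
    | succ n ih =>
      rw [Function.iterate_succ_apply']
      exact (hf _ ih).2.2
  refine ⟨fun n => f^[n] 0, ?_, ?_, hlow⟩
  · apply strictMono_nat_of_lt_succ
    intro n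
    simp only [Function.iterate_succ_apply']
    exact (hf _ (hlow n)).1
  · intro n
    induction n with
    | zero => simp
    | succ n ih =>
      have := (hf _ (hlow n)).2.1
      simp only [Function.iterate_succ_apply'] at ih ⊢
      calc f (f^[n] 0) ≤ f^[n] 0 + w := this
        _ ≤ n * w + w := by omega
        _ = (n + 1) * w := by ring

theorem card_low (k : ℤ) (S : Finset ℤ) (hS : ∀ x ∈ S, |(x : ℝ)| ≤ 1000 * |(k : ℝ)|) :
    (S.card : ℝ) ≤ 2000 * |(k : ℝ)| + 1 := by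
  have := card_class (M := 1) (by norm_num) (Y := 1000 * |(k : ℝ)|) (by positivity) S hS
    (fun x _ y _ => one_dvd _)
  push_cast at this
  linarith

/-- low points with long orbits -/
theorem long_count {L : ℕ} {k : ℤ} {q w : ℕ} (hk : k % 2 = 1) (hp : q.Prime) (h5 : 5 ≤ q)
    (hq : (q : ℤ) ∣ k) (hB : q ∉ Bad L) (S : Finset ℤ)
    (hS : ∀ x ∈ S, |(x : ℝ)| ≤ 1000 * |(k : ℝ)|) (hm : ∀ x ∈ S, ∀ y ∈ S, Merge k x y → x = y)
    (hnf : ∀ x ∈ S, ∀ i, ¬ Fail k w ((T k)^[i] x)) (hx : ∀ x ∈ S, ¬ (q : ℤ) ∣ x) :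
    (S.card : ℝ) * ((L / w : ℕ) + 1 : ℝ) ≤ 2000 * |(k : ℝ)| + 1 := by
  classical
  have h1 : ∀ x : ℤ, ∃ a : ℕ → ℕ, x ∈ S → (StrictMono a ∧ (∀ n, a n ≤ n * w) ∧
      ∀ n, |(((T k)^[a n] x : ℤ) : ℝ)| ≤ 1000 * |(k : ℝ)|) := by
    intro x
    by_cases hxS : x ∈ S
    · obtain ⟨a, ha⟩ := low_times (hS x hxS) (hnf x hxS)
      exact ⟨a, fun _ => ha⟩
    · exact ⟨fun _ => 0, fun h => absurd h hxS⟩
  choose a ha using h1
  set n := L / w with hn
  have hnw : n * w ≤ L := Nat.div_mul_le_self _ _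
  set P : ℤ → Finset ℤ := fun x => (range (n + 1)).image (fun i => (T k)^[a x i] x) with hP
  have hcard : ∀ x ∈ S, (P x).card = n + 1 := by
    intro x hxS
    rw [hP]
    simp only
    rw [Finset.card_image_of_injOn, Finset.card_range]
    have key : ∀ i j : ℕ, i < j → j < n + 1 → (T k)^[a x i] x ≠ (T k)^[a x j] x := by
      intro i j hij hj heq
      obtain ⟨hmono, hle, _⟩ := ha x hxS
      have hlt : a x i < a x j := hmono hij
      have hjL : a x j ≤ L := (hle j).trans ((Nat.mul_le_mul_right _ (by omega)).trans hnw)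
      have := distinct hk hp h5 hq hB (hx x hxS) hlt (by omega)
      apply this
      rw [heq]
    intro i hi j hj hij
    simp only [Finset.coe_range, Set.mem_Iio] at hi hj
    simp only at hij
    rcases lt_trichotomy i j with h | h | h
    · exact absurd hij (key i j h hj)
    · exact h
    · exact absurd hij.symm (key j i h hi)
  have hdis : (S : Set ℤ).PairwiseDisjoint P := by
    intro x hxS y hyS hxy
    rw [Function.onFun, Finset.disjoint_left]
    intro z hz1 hz2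
    rw [hP] at hz1 hz2
    simp only [Finset.mem_image] at hz1 hz2
    obtain ⟨i, _, hi⟩ := hz1
    obtain ⟨j, _, hj⟩ := hz2
    exact hxy (hm x hxS y hyS ⟨a x i, a y j, hi.trans hj.symm⟩)
  have h2 : (S.biUnion P).card = S.card * (n + 1) := by
    rw [Finset.card_biUnion hdis, Finset.sum_congr rfl hcard, Finset.sum_const, smul_eq_mul]
  have h3 := card_low k (S.biUnion P) (by
    intro z hz
    rw [Finset.mem_biUnion] at hz
    obtain ⟨x, hxS, hz⟩ := hz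
    rw [hP] at hz
    simp only [Finset.mem_image] at hz
    obtain ⟨i, _, rfl⟩ := hz
    exact (ha x hxS).2.2 i)
  rw [h2] at h3
  push_cast at h3
  exact h3

theorem win_le {k : ℤ} (hk : k % 2 = 1) : (win k : ℝ) ≤ 3 * Real.log (|(k : ℝ)| + 1) := by
  have hk1 := abs_k hk
  have hkn : k.natAbs ≠ 0 := by omega
  have h1 : (2 : ℝ) ^ (Nat.log 2 k.natAbs) ≤ |(k : ℝ)| := by
    have : 2 ^ (Nat.log 2 k.natAbs) ≤ k.natAbs := Nat.pow_log_le_self 2 hkn
    rw [← natAbs_real]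
    exact_mod_cast this
  have h2 : (2 : ℝ) ^ (win k) ≤ (|(k : ℝ)| + 1) ^ 2 := by
    unfold win
    rw [pow_succ]
    nlinarith
  have h3 := Real.log_le_log (by positivity) h2
  rw [Real.log_pow, Real.log_pow] at h3
  push_cast at h3
  have h4 := Real.log_two_gt_d9
  have h5 : (0 : ℝ) ≤ win k := Nat.cast_nonneg _
  have h6 : 0 ≤ Real.log (|(k : ℝ)| + 1) := Real.log_nonneg (by linarith)
  nlinarith

/-- the general bound -/
theorem trivial_count {k : ℤ} (hk : k % 2 = 1) {X : ℝ} (hX : |(k : ℝ)| ≤ X) :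
    FewClasses k X (20000 * (X ^ (951 / 1000 : ℝ) + |(k : ℝ)|)) := by
  classical
  have hk1 := abs_k hk
  have hX1 : 1 ≤ X := hk1.trans hX
  apply reduce
  intro S hS hm hmin
  set S1 := S.filter (fun x : ℤ => 1000 * |(k : ℝ)| < |(x : ℝ)|) with hS1
  set S2 := S.filter (fun x : ℤ => ¬ 1000 * |(k : ℝ)| < |(x : ℝ)|) with hS2
  have e0 : S.card = S1.card + S2.card := (Finset.card_filter_add_card_filter_not _).symm
  have c1 : (S1.card : ℝ) ≤ 5 * X ^ (951 / 1000 : ℝ) := high_count hk S1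
    (fun x hx => hS x (Finset.mem_filter.1 hx).1) (fun x hx => hmin x (Finset.mem_filter.1 hx).1)
    (fun x hx => (Finset.mem_filter.1 hx).2) hX1
  have c2 : (S2.card : ℝ) ≤ 2000 * |(k : ℝ)| + 1 := card_low k S2
    (fun x hx => not_lt.1 (Finset.mem_filter.1 hx).2)
  rw [e0]
  push_cast
  have : 0 ≤ X ^ (951 / 1000 : ℝ) := by positivity
  linarith

/-- the main count -/
theorem main_count {L : ℕ} (hL : 1 ≤ L) {k : ℤ} {q : ℕ} (hk : k % 2 = 1) (hp : q.Prime) (h5 : 5 ≤ q)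
    (hq : (q : ℤ) ∣ k) (hB : q ∉ Bad L) {X : ℝ} (hX : |(k : ℝ)| ≤ X) :
    FewClasses k X (20000 * (X ^ (951 / 1000 : ℝ) + |(k : ℝ)| / q +
      |(k : ℝ)| * Real.log (|(k : ℝ)| + 1) / L)) := by
  classical
  have hk1 := abs_k hk
  have hX1 : 1 ≤ X := hk1.trans hX
  have hLr : (1 : ℝ) ≤ L := by exact_mod_cast hL
  apply reduce
  intro S hS hm hmin
  set S1 := S.filter (fun x : ℤ => 1000 * |(k : ℝ)| < |(x : ℝ)|) with hS1
  set S2 := S.filter (fun x : ℤ => ¬ 1000 * |(k : ℝ)| < |(x : ℝ)|) with hS2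
  have e0 : S.card = S1.card + S2.card := (Finset.card_filter_add_card_filter_not _).symm
  have c1 : (S1.card : ℝ) ≤ 5 * X ^ (951 / 1000 : ℝ) := high_count hk S1
    (fun x hx => hS x (Finset.mem_filter.1 hx).1) (fun x hx => hmin x (Finset.mem_filter.1 hx).1)
    (fun x hx => (Finset.mem_filter.1 hx).2) hX1
  -- divisible by q
  set S3 := S2.filter (fun x => (q : ℤ) ∣ x) with hS3
  set S4 := S2.filter (fun x => ¬ (q : ℤ) ∣ x) with hS4
  have e1 : S2.card = S3.card + S4.card := (Finset.card_filter_add_card_filter_not _).symm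
  have hqpos : (0 : ℤ) < q := by exact_mod_cast hp.pos
  have c3 : (S3.card : ℝ) ≤ 2 * (1000 * |(k : ℝ)|) / q + 1 := by
    have := card_class (M := (q : ℤ)) hqpos (Y := 1000 * |(k : ℝ)|) (by positivity) S3
      (fun x hx => not_lt.1 (Finset.mem_filter.1 (Finset.mem_filter.1 hx).1).2)
      (fun x hx y hy => dvd_sub (Finset.mem_filter.1 hx).2 (Finset.mem_filter.1 hy).2)
    push_cast at this
    exact this
  -- failing
  set S5 := S4.filter (fun x => ∃ i, Fail k (win k) ((T k)^[i] x)) with hS5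
  set S6 := S4.filter (fun x => ¬ ∃ i, Fail k (win k) ((T k)^[i] x)) with hS6
  have e2 : S4.card = S5.card + S6.card := (Finset.card_filter_add_card_filter_not _).symm
  have sub4 : ∀ x ∈ S4, x ∈ S ∧ |(x : ℝ)| ≤ 1000 * |(k : ℝ)| ∧ ¬ (q : ℤ) ∣ x := by
    intro x hx
    have h1 := Finset.mem_filter.1 hx
    have h2 := Finset.mem_filter.1 h1.1
    exact ⟨h2.1, not_lt.1 h2.2, h1.2⟩
  have c5 : (S5.card : ℝ) ≤ 16008 * |(k : ℝ)| ^ (951 / 1000 : ℝ) := by
    have hex : ∀ x : ℤ, ∃ i : ℕ, x ∈ S5 → Fail k (win k) ((T k)^[i] x) := by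
      intro x
      by_cases hx : x ∈ S5
      · obtain ⟨i, hi⟩ := (Finset.mem_filter.1 hx).2
        exact ⟨i, fun _ => hi⟩
      · exact ⟨0, fun h => absurd h hx⟩
    choose i hi using hex
    have hinj : Set.InjOn (fun x => (T k)^[i x] x) (S5 : Set ℤ) := by
      intro x hx y hy hxy
      exact hm x (sub4 x (Finset.mem_filter.1 hx).1).1 y (sub4 y (Finset.mem_filter.1 hy).1).1
        ⟨i x, i y, hxy⟩
    rw [← Finset.card_image_of_injOn hinj]
    apply fail_count hk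
    intro z hz
    rw [Finset.mem_image] at hz
    obtain ⟨x, hx, rfl⟩ := hz
    exact hi x hx
  have c6 : (S6.card : ℝ) ≤ 6003 * (|(k : ℝ)| * Real.log (|(k : ℝ)| + 1) / L) := by
    have h1 := long_count hk hp h5 hq hB S6
      (fun x hx => (sub4 x (Finset.mem_filter.1 hx).1).2.1)
      (fun x hx y hy => hm x (sub4 x (Finset.mem_filter.1 hx).1).1 y
        (sub4 y (Finset.mem_filter.1 hy).1).1)
      (fun x hx i hf => (Finset.mem_filter.1 hx).2 ⟨i, hf⟩)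
      (fun x hx => (sub4 x (Finset.mem_filter.1 hx).1).2.2)
    have hw : 0 < win k := by unfold win; omega
    have hwr : (0 : ℝ) < win k := by exact_mod_cast hw
    have h2 : (L : ℝ) ≤ ((L / win k : ℕ) + 1 : ℝ) * win k := by
      have : L < (L / win k + 1) * win k := by
        rw [add_mul, one_mul]
        have := Nat.div_add_mod L (win k)
        have h3 := Nat.mod_lt L hw
        nlinarith
      exact_mod_cast this.le
    have h3 : (S6.card : ℝ) * L ≤ (2000 * |(k : ℝ)| + 1) * win k := by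
      calc (S6.card : ℝ) * L ≤ S6.card * (((L / win k : ℕ) + 1 : ℝ) * win k) :=
            mul_le_mul_of_nonneg_left h2 (Nat.cast_nonneg _)
        _ = (S6.card * ((L / win k : ℕ) + 1 : ℝ)) * win k := by ring
        _ ≤ (2000 * |(k : ℝ)| + 1) * win k := mul_le_mul_of_nonneg_right h1 hwr.le
    have h4 := win_le hk
    have h6 : 0 ≤ Real.log (|(k : ℝ)| + 1) := Real.log_nonneg (by linarith)
    rw [← mul_div_assoc, le_div_iff₀ (by linarith)]
    calc (S6.card : ℝ) * L ≤ (2000 * |(k : ℝ)| + 1) * win k := h3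
      _ ≤ (2001 * |(k : ℝ)|) * (3 * Real.log (|(k : ℝ)| + 1)) :=
        mul_le_mul (by linarith) h4 hwr.le (by positivity)
      _ = 6003 * (|(k : ℝ)| * Real.log (|(k : ℝ)| + 1)) := by ring
  have c7 : |(k : ℝ)| ^ (951 / 1000 : ℝ) ≤ X ^ (951 / 1000 : ℝ) :=
    Real.rpow_le_rpow (by positivity) hX (by norm_num)
  have c8 : 1 ≤ X ^ (951 / 1000 : ℝ) := Real.one_le_rpow hX1 (by norm_num)
  have c9 : 0 ≤ |(k : ℝ)| * Real.log (|(k : ℝ)| + 1) / L := by
    have h6 : 0 ≤ Real.log (|(k : ℝ)| + 1) := Real.log_nonneg (by linarith)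
    positivity
  have c10 : 2 * (1000 * |(k : ℝ)|) / q = 2000 * (|(k : ℝ)| / q) := by ring
  have c11 : 0 ≤ |(k : ℝ)| / q := by positivity
  rw [e0, e1, e2]
  push_cast
  rw [c10] at c3
  linarith

end Pool.Agent.Helper89K9.TK
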