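import Pool.Agent.Helper89K9.TK.Main

/-! Averaging over prime `k`. -/

set_option autoImplicit false

namespace Pool.Agent.Helper89K9.TK

open Finset

theorem ow_prev2 {k l x y : ℤ} {n : ℕ} (h : ow k x (n + 1) = ow l y (n + 1)) :
    ow k x n = ow l y n ∧ (((T k)^[n] x) % 2 = 0 ↔ ((T l)^[n] y) % 2 = 0) := by
  constructor
  · ext i
    unfold ow at *
    have h1 := Finset.ext_iff.1 h i
    simp only [Finset.mem_filter, Finset.mem_range] at h1 ⊢
    constructor
    · rintro ⟨a, b⟩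
      exact ⟨a, (h1.1 ⟨by omega, b⟩).2⟩
    · rintro ⟨a, b⟩
      exact ⟨a, (h1.2 ⟨by omega, b⟩).2⟩
  · have h1 := Finset.ext_iff.1 h n
    unfold ow at h1
    simp only [Finset.mem_filter, Finset.mem_range] at h1
    have h2 : n < n + 1 := by omega
    tauto

theorem pair_diff {k l : ℤ} (hk : k % 2 = 1) (hl : l % 2 = 1) (x y : ℤ) (n : ℕ)
    (h : ow k x n = ow l y n) :
    2 ^ n * (l * (T k)^[n] x - k * (T l)^[n] y) = 3 ^ oc k x n * (l * x - k * y) := by
  induction n with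
  | zero => simp [oc]
  | succ n ih =>
    obtain ⟨h1, h2⟩ := ow_prev2 h
    have h3 := ih h1
    rw [Function.iterate_succ_apply', Function.iterate_succ_apply']
    simp only [oc]
    set u := (T k)^[n] x with hu
    set v := (T l)^[n] y with hv
    have e : (2 : ℤ) ^ (n + 1) * (l * T k u - k * T l v) =
        2 ^ n * (l * (2 * T k u) - k * (2 * T l v)) := by ring
    rw [e]
    by_cases hc : u % 2 = 0
    · rw [if_pos hc, add_zero, two_T_even hc, two_T_even (h2.1 hc), h3]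
    · rw [if_neg hc, two_T_odd hk hc, two_T_odd hl (fun h => hc (h2.2 h))]
      have : (2 : ℤ) ^ n * (l * (3 * u + k) - k * (3 * v + l)) = 3 * (2 ^ n * (l * u - k * v)) := by
        ring
      rw [this, h3]
      ring

theorem pair_dvd {k l : ℤ} (hk : k % 2 = 1) (hl : l % 2 = 1) (x y : ℤ) (n : ℕ)
    (h : ow k x n = ow l y n) : (2 : ℤ) ^ n ∣ l * x - k * y := by
  have h1 := pair_diff hk hl x y n h
  have h2 : (2 : ℤ) ^ n ∣ 3 ^ oc k x n * (l * x - k * y) := ⟨_, h1.symm⟩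
  have h3 : IsCoprime ((2 : ℤ) ^ n) (3 ^ oc k x n) := IsCoprime.pow (by norm_num)
  exact h3.dvd_of_dvd_mul_left h2

/-- pairs of a prime and an integer with many odd terms -/
theorem card_pairs {c Y K : ℝ} (hc : 1 ≤ c) (n : ℕ) (hn : 2 * Y * K < 2 ^ n)
    (P : Finset (ℕ × ℤ)) (hP : ∀ p ∈ P, p.1.Prime ∧ p.1 % 2 = 1 ∧ (p.1 : ℝ) ≤ K ∧
      ¬ (p.1 : ℤ) ∣ p.2 ∧ |(p.2 : ℝ)| ≤ Y ∧ (2 : ℝ) ^ n ≤ c * 3.001 ^ oc p.1 p.2 n) :
    (P.card : ℝ) ≤ c * 2 ^ ((951 / 1000 : ℝ) * n) := by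
  have hinj : Set.InjOn (fun p : ℕ × ℤ => ow p.1 p.2 n) (P : Set (ℕ × ℤ)) := by
    rintro ⟨a, x⟩ hax ⟨b, y⟩ hby hab
    simp only at hab
    obtain ⟨ha1, ha2, ha3, ha4, ha5, -⟩ := hP _ hax
    obtain ⟨hb1, hb2, hb3, hb4, hb5, -⟩ := hP _ hby
    simp only at ha1 ha2 ha3 ha4 ha5 hb1 hb2 hb3 hb4 hb5
    have hd := pair_dvd (k := a) (l := b) (by omega) (by omega) x y n hab
    have hz : (b : ℤ) * x - a * y = 0 := by
      by_contra hne
      have h1 := Int.le_of_dvd (abs_pos.2 hne) ((dvd_abs _ _).2 hd)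
      have h2 : (2 : ℝ) ^ n ≤ |(b : ℝ) * x - a * y| := by exact_mod_cast h1
      have h3 : |(b : ℝ) * x - a * y| ≤ 2 * Y * K := by
        refine (abs_sub _ _).trans ?_
        rw [abs_mul, abs_mul, Nat.abs_cast, Nat.abs_cast]
        have hY : 0 ≤ Y := (abs_nonneg _).trans ha5
        have hK : 0 ≤ K := (Nat.cast_nonneg _).trans ha3
        have e1 : (b : ℝ) * |(x : ℝ)| ≤ K * Y := mul_le_mul hb3 ha5 (abs_nonneg _) hK
        have e2 : (a : ℝ) * |(y : ℝ)| ≤ K * Y := mul_le_mul ha3 hb5 (abs_nonneg _) hK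
        linarith
      linarith
    have hab' : a = b := by
      have hpa : Prime (a : ℤ) := Nat.prime_iff_prime_int.1 ha1
      have h1 : (a : ℤ) ∣ b * x := ⟨y, by linarith⟩
      rcases hpa.dvd_or_dvd h1 with h | h
      · exact (Nat.prime_dvd_prime_iff_eq ha1 hb1).1 (Int.natCast_dvd_natCast.1 h)
      · exact absurd h ha4
    subst hab'
    have ha0 : (a : ℤ) ≠ 0 := by
      have := ha1.pos
      omega
    have : x = y := by
      apply mul_left_cancel₀ ha0
      linarith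
    rw [this]
  rw [← Finset.card_image_of_injOn hinj]
  apply card_words hc n
  · intro s hs
    rw [Finset.mem_image] at hs
    obtain ⟨p, _, rfl⟩ := hs
    rw [Finset.mem_powerset]
    exact Finset.filter_subset _ _
  · intro s hs
    rw [Finset.mem_image] at hs
    obtain ⟨p, hp, rfl⟩ := hs
    rw [card_ow]
    exact (hP p hp).2.2.2.2.2

/-- few primes `q` have a large set `G q` of such integers -/
theorem card_exc {c Y K lam : ℝ} (hc : 1 ≤ c) (n : ℕ) (hn : 2 * Y * K < 2 ^ n) (hlam : 0 < lam)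
    (Q : Finset ℕ) (G : ℕ → Finset ℤ) (hQ : ∀ q ∈ Q, q.Prime ∧ q % 2 = 1 ∧ (q : ℝ) ≤ K)
    (hG : ∀ q ∈ Q, ∀ x ∈ G q, ¬ (q : ℤ) ∣ x ∧ |(x : ℝ)| ≤ Y ∧ (2 : ℝ) ^ n ≤ c * 3.001 ^ oc q x n)
    (hbig : ∀ q ∈ Q, lam ≤ (G q).card) :
    (Q.card : ℝ) ≤ c * 2 ^ ((951 / 1000 : ℝ) * n) / lam := by
  classical
  rw [le_div_iff₀ hlam]
  have h1 := card_pairs hc n hn ((Q.sigma G).map ⟨fun p : (_ : ℕ) × ℤ => (p.1, p.2), by
    rintro ⟨a, x⟩ ⟨b, y⟩ h
    simp only [Prod.mk.injEq] at h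
    obtain ⟨rfl, rfl⟩ := h
    rfl⟩) (by
      intro p hp
      rw [Finset.mem_map] at hp
      obtain ⟨⟨q, x⟩, hqx, rfl⟩ := hp
      rw [Finset.mem_sigma] at hqx
      obtain ⟨a1, a2, a3⟩ := hQ q hqx.1
      obtain ⟨b1, b2, b3⟩ := hG q hqx.1 x hqx.2
      exact ⟨a1, a2, a3, b1, b2, b3⟩)
  rw [Finset.card_map, Finset.card_sigma] at h1
  push_cast at h1
  calc (Q.card : ℝ) * lam = ∑ q ∈ Q, lam := by rw [Finset.sum_const, nsmul_eq_mul]
    _ ≤ ∑ q ∈ Q, ((G q).card : ℝ) := Finset.sum_le_sum hbig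
    _ ≤ _ := h1

theorem merge_neg {k x y : ℤ} (hk : k % 2 = 1) (h : Merge k x y) : Merge (-k) (-x) (-y) := by
  obtain ⟨i, j, hij⟩ := h
  refine ⟨i, j, ?_⟩
  have e : ∀ (z : ℤ) (n : ℕ), (T (-k))^[n] (-z) = -((T k)^[n] z) := by
    intro z n
    have := iter_mul (k := k) (c := -1) hk (by norm_num) z n
    simpa using this
  rw [e, e, hij]

theorem few_neg {k : ℤ} (hk : k % 2 = 1) {X B : ℝ} (h : FewClasses k X B) : FewClasses (-k) X B := by
  intro S hS hm
  have hinj : Function.Injective (fun x : ℤ => -x) := neg_injective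
  rw [← Finset.card_image_of_injective S hinj]
  apply h
  · intro z hz
    rw [Finset.mem_image] at hz
    obtain ⟨x, hx, rfl⟩ := hz
    push_cast
    rw [abs_neg]
    exact hS x hx
  · intro z hz w hw hzw
    rw [Finset.mem_image] at hz hw
    obtain ⟨x, hx, rfl⟩ := hz
    obtain ⟨y, hy, rfl⟩ := hw
    have := merge_neg hk hzw
    rw [neg_neg, neg_neg] at this
    rw [hm x hx y hy this]

/-- the count for a prime `k` -/
theorem prime_count {L w q : ℕ} (hL : 1 ≤ L) (hw : 1 ≤ w) (hp : q.Prime) (h5 : 5 ≤ q)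
    (hB : q ∉ Bad L) {X H F : ℝ} (hX : (q : ℝ) ≤ X)
    (hH : ∀ G : Finset ℤ, (∀ x ∈ G, |(x : ℝ)| ≤ X ∧ ¬ (q : ℤ) ∣ x ∧ Min q x ∧
      1000 * (q : ℝ) < |(x : ℝ)|) → (G.card : ℝ) ≤ H)
    (hF : ∀ G : Finset ℤ, (∀ x ∈ G, ¬ (q : ℤ) ∣ x ∧ Fail q w x) → (G.card : ℝ) ≤ F) :
    FewClasses q X (H + F + 5 * (X / q) ^ (951 / 1000 : ℝ) + 2001 + 2001 * (q : ℝ) * w / L) := by
  classical
  have hqodd : (q : ℤ) % 2 = 1 := by
    rcases hp.eq_two_or_odd with h | h <;> omega
  have hq1 : (1 : ℝ) ≤ q := by exact_mod_cast hp.one_lt.le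
  have hqpos : (0 : ℝ) < q := by linarith
  have hX1 : 1 ≤ X := hq1.trans hX
  have hLr : (1 : ℝ) ≤ L := by exact_mod_cast hL
  have hkabs : |((q : ℤ) : ℝ)| = q := by
    push_cast
    exact Nat.abs_cast q
  apply reduce
  intro S hS hm hmin
  -- in q Z or not
  set S1 := S.filter (fun x : ℤ => (q : ℤ) ∣ x) with hS1
  set S2 := S.filter (fun x : ℤ => ¬ (q : ℤ) ∣ x) with hS2
  have e0 : S.card = S1.card + S2.card := (Finset.card_filter_add_card_filter_not _).symm
  set S3 := S1.filter (fun x : ℤ => 1000 * (q : ℝ) < |(x : ℝ)|) with hS3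
  set S4 := S1.filter (fun x : ℤ => ¬ 1000 * (q : ℝ) < |(x : ℝ)|) with hS4
  have e1 : S1.card = S3.card + S4.card := (Finset.card_filter_add_card_filter_not _).symm
  set S5 := S2.filter (fun x : ℤ => 1000 * (q : ℝ) < |(x : ℝ)|) with hS5
  set S6 := S2.filter (fun x : ℤ => ¬ 1000 * (q : ℝ) < |(x : ℝ)|) with hS6
  have e2 : S2.card = S5.card + S6.card := (Finset.card_filter_add_card_filter_not _).symm
  set S7 := S6.filter (fun x => ∃ i, Fail q w ((T q)^[i] x)) with hS7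
  set S8 := S6.filter (fun x => ¬ ∃ i, Fail q w ((T q)^[i] x)) with hS8
  have e3 : S6.card = S7.card + S8.card := (Finset.card_filter_add_card_filter_not _).symm
  have c3 : (S3.card : ℝ) ≤ 5 * (X / q) ^ (951 / 1000 : ℝ) := by
    have hmul : ∀ x ∈ S3, ∃ y : ℤ, x = q * y := fun x hx =>
      (Finset.mem_filter.1 (Finset.mem_filter.1 hx).1).2
    have hinj : Set.InjOn (fun x : ℤ => x / q) (S3 : Set ℤ) := by
      intro x hx y hy hxy
      simp only at hxy
      obtain ⟨a, ha⟩ := hmul x hx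
      obtain ⟨b, hb⟩ := hmul y hy
      have hq0 : (q : ℤ) ≠ 0 := by
        have := hp.pos
        omega
      rw [ha, hb, Int.mul_ediv_cancel_left _ hq0, Int.mul_ediv_cancel_left _ hq0] at hxy
      rw [ha, hb, hxy]
    rw [← Finset.card_image_of_injOn hinj]
    have hprop : ∀ y ∈ S3.image (fun x : ℤ => x / q), (q : ℤ) * y ∈ S3 := by
      intro y hy
      rw [Finset.mem_image] at hy
      obtain ⟨x, hx, rfl⟩ := hy
      obtain ⟨a, ha⟩ := hmul x hx
      have hq0 : (q : ℤ) ≠ 0 := by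
        have := hp.pos
        omega
      rw [ha, Int.mul_ediv_cancel_left _ hq0, ← ha]
      exact hx
    have habs : ∀ y : ℤ, |(((q : ℤ) * y : ℤ) : ℝ)| = q * |(y : ℝ)| := by
      intro y
      push_cast
      rw [abs_mul, Nat.abs_cast]
    apply high_count (k := 1) (by norm_num)
    · intro y hy
      have h1 := hS _ (Finset.mem_filter.1 (Finset.mem_filter.1 (hprop y hy)).1).1
      rw [habs] at h1
      rw [le_div_iff₀ hqpos]
      linarith
    · intro y hy j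
      have h1 := hmin _ (Finset.mem_filter.1 (Finset.mem_filter.1 (hprop y hy)).1).1 j
      have h2 := iter_mul (k := 1) (c := q) (by norm_num) hqodd y j
      rw [mul_one] at h2
      rw [h2, habs, habs] at h1
      exact le_of_mul_le_mul_left h1 hqpos
    · intro y hy
      have h1 := (Finset.mem_filter.1 (hprop y hy)).2
      rw [habs] at h1
      push_cast
      rw [abs_one, mul_one]
      have h2 : (q : ℝ) * 1000 < q * |(y : ℝ)| := by linarith
      exact lt_of_mul_lt_mul_left h2 hqpos.le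
    · rw [le_div_iff₀ hqpos]
      linarith
  have c4 : (S4.card : ℝ) ≤ 2001 := by
    have h1 := card_class (M := (q : ℤ)) (by exact_mod_cast hp.pos) (Y := 1000 * (q : ℝ))
      (by positivity) S4 (fun x hx => not_lt.1 (Finset.mem_filter.1 hx).2)
      (fun x hx y hy => dvd_sub (Finset.mem_filter.1 (Finset.mem_filter.1 hx).1).2
        (Finset.mem_filter.1 (Finset.mem_filter.1 hy).1).2)
    push_cast at h1
    have h2 : 2 * (1000 * (q : ℝ)) / q = 2000 := by
      field_simp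
      norm_num
    rw [h2] at h1
    linarith
  have c5 : (S5.card : ℝ) ≤ H := by
    apply hH
    intro x hx
    have h1 := Finset.mem_filter.1 hx
    have h2 := Finset.mem_filter.1 h1.1
    exact ⟨hS x h2.1, h2.2, hmin x h2.1, h1.2⟩
  have sub6 : ∀ x ∈ S6, x ∈ S ∧ ¬ (q : ℤ) ∣ x ∧ |(x : ℝ)| ≤ 1000 * |((q : ℤ) : ℝ)| := by
    intro x hx
    have h1 := Finset.mem_filter.1 hx
    have h2 := Finset.mem_filter.1 h1.1
    rw [hkabs]
    exact ⟨h2.1, h2.2, not_lt.1 h1.2⟩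
  have c7 : (S7.card : ℝ) ≤ F := by
    have hex : ∀ x : ℤ, ∃ i : ℕ, x ∈ S7 → Fail q w ((T q)^[i] x) := by
      intro x
      by_cases hx : x ∈ S7
      · obtain ⟨i, hi⟩ := (Finset.mem_filter.1 hx).2
        exact ⟨i, fun _ => hi⟩
      · exact ⟨0, fun h => absurd h hx⟩
    choose i hi using hex
    have hinj : Set.InjOn (fun x => (T q)^[i x] x) (S7 : Set ℤ) := by
      intro x hx y hy hxy
      exact hm x (sub6 x (Finset.mem_filter.1 hx).1).1 y (sub6 y (Finset.mem_filter.1 hy).1).1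
        ⟨i x, i y, hxy⟩
    rw [← Finset.card_image_of_injOn hinj]
    apply hF
    intro z hz
    rw [Finset.mem_image] at hz
    obtain ⟨x, hx, rfl⟩ := hz
    exact ⟨not_dvd_iter hqodd hp h5 (dvd_refl _) (sub6 x (Finset.mem_filter.1 hx).1).2.1 _, hi x hx⟩
  have c8 : (S8.card : ℝ) ≤ 2001 * (q : ℝ) * w / L := by
    have h1 := long_count hqodd hp h5 (dvd_refl _) hB S8
      (fun x hx => (sub6 x (Finset.mem_filter.1 hx).1).2.2)
      (fun x hx y hy => hm x (sub6 x (Finset.mem_filter.1 hx).1).1 y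
        (sub6 y (Finset.mem_filter.1 hy).1).1)
      (w := w)
      (fun x hx i hf => (Finset.mem_filter.1 hx).2 ⟨i, hf⟩)
      (fun x hx => (sub6 x (Finset.mem_filter.1 hx).1).2.1)
    rw [hkabs] at h1
    have hwr : (0 : ℝ) < w := by exact_mod_cast hw
    have h2 : (L : ℝ) ≤ ((L / w : ℕ) + 1 : ℝ) * w := by
      have : L < (L / w + 1) * w := by
        rw [add_mul, one_mul]
        have := Nat.div_add_mod L w
        have h3 := Nat.mod_lt L hw
        nlinarith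
      exact_mod_cast this.le
    rw [le_div_iff₀ (by linarith)]
    calc (S8.card : ℝ) * L ≤ S8.card * (((L / w : ℕ) + 1 : ℝ) * w) :=
          mul_le_mul_of_nonneg_left h2 (Nat.cast_nonneg _)
      _ = (S8.card * ((L / w : ℕ) + 1 : ℝ)) * w := by ring
      _ ≤ (2000 * (q : ℝ) + 1) * w := mul_le_mul_of_nonneg_right h1 hwr.le
      _ ≤ (2001 * (q : ℝ)) * w := mul_le_mul_of_nonneg_right (by linarith) hwr.le
  rw [e0, e1, e2, e3]
  push_cast
  linarith

end Pool.Agent.Helper89K9.TK
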