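import Pool.Agent.Helper89K9.TK.PrimeK
import Pool.Agent.H547R3.Sub.Tqk2

/-! Long cycles have complex parity words (uses the theorem on periodic pieces of the starting files). -/

set_option autoImplicit false

namespace Pool.Agent.Helper89K9.TK

/-- The factor `w a, w (a+1), ..., w (b-1)` of the sequence `w` has period `π`. -/
def HasPeriod (w : ℕ → ℤ) (π a b : ℕ) : Prop := ∀ j, a ≤ j → j + π < b → w (j + π) = w j

/-- The word `w 0, w 1, ..., w (n-1)` is a concatenation of `m` words (cut at `0 = t 0 ≤ t 1 ≤ ... ≤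
t m = n`), each of which has some period `π` with `1 ≤ π ≤ ℓ`. -/
def Splits (w : ℕ → ℤ) (ℓ m n : ℕ) : Prop :=
  ∃ t : ℕ → ℕ, t 0 = 0 ∧ t m = n ∧ (∀ i < m, t i ≤ t (i + 1)) ∧
    ∀ i < m, ∃ π, 1 ≤ π ∧ π ≤ ℓ ∧ HasPeriod w π (t i) (t (i + 1))

open Pool.Agent.H547R3.Sub in
lemma T_eq (k : ℤ) : T k = Tm (3 : ℕ) k := by
  funext x; simp [T, Tm]

open Pool.Agent.H547R3.Sub in
lemma dec_of_splits {k x : ℤ} {ℓ m n : ℕ} (h : Splits (fun i => (T k)^[i] x % 2) ℓ m n) :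
    Dec (par (3 : ℕ) k x) ℓ m 0 n := by
  obtain ⟨t, h0, hm, hmono, hper⟩ := h
  refine ⟨t, h0, hm, hmono, fun i hi => ?_⟩
  obtain ⟨π, h1, h2, h3⟩ := hper i hi
  refine ⟨π, h1, h2, fun j hj1 hj2 => ?_⟩
  have h4 := h3 j hj1 hj2
  simp only [T_eq] at h4
  exact par_int _ _ _ _ _ h4

open Pool.Agent.H547R3.Sub in
theorem prime_pieces {η : ℝ} (hη2 : η ≤ 1 / 2) {C θ : ℝ} (hC : 0 < C) (hθ : 0 < θ)
    (hθ2 : θ < (1 - η) / 3) : ∃ A : ℝ, ∀ k : ℤ, k.natAbs.Prime → 5 ≤ k.natAbs → k.natAbs ∉ Exc η →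
      ∀ (x : ℤ) (p m ℓ : ℕ), ¬ k ∣ x → 1 ≤ p → (T k)^[p] x = x →
        (∀ j, 1 ≤ j → j < p → (T k)^[j] x ≠ x) → (ℓ : ℝ) ≤ |(k : ℝ)| ^ θ →
        Splits (fun i => (T k)^[i] x % 2) ℓ m p → C * Real.log |(k : ℝ)| ≤ m + A := by
  set τ := (1 - η) / 3 with hτ
  have hτ0 : 0 < τ := by linarith
  have hd : 0 < τ - θ := by linarith
  set C2 := C / (τ - θ) with hC2
  have hC20 : 0 < C2 := by positivity
  obtain ⟨A, hA, h⟩ := cycleT2 (q := 3) Nat.prime_three (by norm_num) C2 hC20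
  set s := θ / τ with hs
  have hs0 : 0 < s := by positivity
  set M : ℝ := 1 + 1 / (τ * s) + (1 + 2 / s) ^ 2 with hM
  have hM0 : 0 < M := by positivity
  refine ⟨C2 * Real.log (A * M), fun k hkp h5 hE x p m ℓ hx hp hper hprim hℓ hS => ?_⟩
  have hkodd : k % 2 = 1 := by
    rcases hkp.eq_two_or_odd with h | h <;> omega
  have hret : |(k : ℝ)| ^ τ < p := by
    by_contra hcon
    push Not at hcon
    have := prime_returns hη2 hkp h5 hE hx (i := 0) (j := p) (by omega) (by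
      rw [Nat.cast_zero, zero_add]
      exact hcon)
    apply this
    rw [hper]
    exact Int.ModEq.refl _
  have hD := dec_of_splits hS
  rw [T_eq] at hper hprim
  have h1 := h k hkodd x p m ℓ hp hper hprim hD
  set Z := |(k : ℝ)| with hZ
  have hk1 : (1 : ℝ) ≤ Z := abs_k hkodd
  have hZ0 : 0 < Z := by linarith
  have hlogk : 0 ≤ Real.log Z := Real.log_nonneg hk1
  have hpR : (1 : ℝ) ≤ p := by exact_mod_cast hp
  have hp0 : (0 : ℝ) < p := by linarith
  have hlogp : 0 ≤ Real.log p := Real.log_nonneg hpR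
  have hℓ0 : (0 : ℝ) ≤ ℓ := Nat.cast_nonneg _
  have hS0 : (0 : ℝ) < ℓ + Real.log Z + (1 + Real.log p) ^ 2 := by positivity
  -- the three terms
  have hps1 : 1 ≤ (p : ℝ) ^ s := Real.one_le_rpow hpR hs0.le
  have t1 : (ℓ : ℝ) ≤ (p : ℝ) ^ s := by
    have e : Z ^ θ = (Z ^ τ) ^ s := by
      rw [← Real.rpow_mul hZ0.le, hs]
      congr 1
      field_simp
    calc (ℓ : ℝ) ≤ Z ^ θ := hℓ
      _ = (Z ^ τ) ^ s := e
      _ ≤ (p : ℝ) ^ s := Real.rpow_le_rpow (by positivity) hret.le hs0.le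
  have t2 : Real.log Z ≤ 1 / (τ * s) * (p : ℝ) ^ s := by
    have a1 : τ * Real.log Z ≤ Real.log p := by
      have := Real.log_le_log (by positivity) hret.le
      rwa [Real.log_rpow hZ0] at this
    have a2 : Real.log p ≤ (p : ℝ) ^ s / s := Real.log_le_rpow_div hp0.le hs0
    have a3 : τ * Real.log Z ≤ (p : ℝ) ^ s / s := a1.trans a2
    have e : 1 / (τ * s) * (p : ℝ) ^ s = ((p : ℝ) ^ s / s) / τ := by
      field_simp
    rw [e, le_div_iff₀ hτ0]
    linarith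
  have t3 : (1 + Real.log p) ^ 2 ≤ (1 + 2 / s) ^ 2 * (p : ℝ) ^ s := by
    have a1 : Real.log p ≤ (p : ℝ) ^ (s / 2) / (s / 2) := Real.log_le_rpow_div hp0.le (by positivity)
    have a2 : 1 ≤ (p : ℝ) ^ (s / 2) := Real.one_le_rpow hpR (by positivity)
    have a3 : 1 + Real.log p ≤ (1 + 2 / s) * (p : ℝ) ^ (s / 2) := by
      have e : (p : ℝ) ^ (s / 2) / (s / 2) = 2 / s * (p : ℝ) ^ (s / 2) := by field_simp
      rw [e] at a1
      linarith
    have a4 : ((p : ℝ) ^ (s / 2)) ^ 2 = (p : ℝ) ^ s := by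
      rw [← Real.rpow_natCast, ← Real.rpow_mul hp0.le]
      congr 1
      push_cast
      ring
    calc (1 + Real.log p) ^ 2 ≤ ((1 + 2 / s) * (p : ℝ) ^ (s / 2)) ^ 2 :=
          pow_le_pow_left₀ (by linarith) a3 2
      _ = (1 + 2 / s) ^ 2 * (p : ℝ) ^ s := by rw [mul_pow, a4]
  have hsum : ℓ + Real.log Z + (1 + Real.log p) ^ 2 ≤ M * (p : ℝ) ^ s := by
    rw [hM]
    linarith
  -- combine
  have hm0 : 0 < Real.exp (m / C2) := Real.exp_pos _
  have hps0 : 0 < (p : ℝ) ^ s := by positivity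
  have h2 : (p : ℝ) ≤ A * M * (p : ℝ) ^ s * Real.exp (m / C2) := by
    calc (p : ℝ) ≤ A * Real.exp (m / C2) * (ℓ + Real.log Z + (1 + Real.log p) ^ 2) := by
          linarith
      _ ≤ A * Real.exp (m / C2) * (M * (p : ℝ) ^ s) := mul_le_mul_of_nonneg_left hsum (by positivity)
      _ = A * M * (p : ℝ) ^ s * Real.exp (m / C2) := by ring
  have h3 := Real.log_le_log hp0 h2
  rw [Real.log_mul (by positivity) hm0.ne', Real.log_mul (by positivity) hps0.ne', Real.log_exp,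
    Real.log_rpow hp0] at h3
  have h4 : τ * Real.log Z ≤ Real.log p := by
    have := Real.log_le_log (by positivity) hret.le
    rwa [Real.log_rpow hZ0] at this
  have hs1 : 0 < 1 - s := by
    have : s < 1 := by
      rw [hs, div_lt_one hτ0]
      exact hθ2
    linarith
  have h5 : (1 - s) * (τ * Real.log Z) ≤ Real.log (A * M) + m / C2 := by
    have h6 := mul_le_mul_of_nonneg_left h4 hs1.le
    linarith
  have h6 : (1 - s) * (τ * Real.log Z) = (τ - θ) * Real.log Z := by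
    rw [hs]
    field_simp
  rw [h6] at h5
  have h7 := mul_le_mul_of_nonneg_left h5 hC20.le
  have e1 : C2 * ((τ - θ) * Real.log Z) = C * Real.log Z := by
    rw [hC2]
    field_simp
  have e2 : C2 * (Real.log (A * M) + m / C2) = m + C2 * Real.log (A * M) := by
    field_simp
    ring
  rw [e1, e2] at h7
  exact h7

end Pool.Agent.Helper89K9.TK
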