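import Pool.Agent.Helper89K9.TK.Exc

/-! The count for the prime `k` outside the exceptional set. -/

set_option autoImplicit false

namespace Pool.Agent.Helper89K9.TK

open Finset

theorem not_bad {η : ℝ} {q : ℕ} (hp : q.Prime) (h5 : 5 ≤ q) (hE : q ∉ Exc η) :
    q ∈ Blk (Nat.log 2 q) ∧ q ∉ Bad (LL η (Nat.log 2 q)) ∧ q ∉ ExcH η (Nat.log 2 q) ∧
      q ∉ ExcF η (Nat.log 2 q) := by
  have hblk : q ∈ Blk (Nat.log 2 q) := by
    refine ⟨hp, ?_, Nat.pow_log_le_self 2 (by omega), Nat.lt_pow_succ_log_self (by norm_num) _⟩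
    rcases hp.eq_two_or_odd with h | h <;> omega
  unfold Exc at hE
  rw [Set.mem_iUnion, not_exists] at hE
  have h1 := hE (Nat.log 2 q)
  rw [Set.mem_union, Set.mem_union, not_or, not_or] at h1
  refine ⟨hblk, fun h => h1.1.1 ⟨hblk, h⟩, h1.1.2, h1.2⟩

theorem LL_ge {η : ℝ} (hη2 : η ≤ 1 / 2) {q : ℕ} (h5 : 5 ≤ q) :
    ⌊(q : ℝ) ^ ((1 - η) / 3)⌋₊ ≤ LL η (Nat.log 2 q) := by
  unfold LL
  apply Nat.floor_le_floor
  have h1 : q < 2 ^ (Nat.log 2 q + 1) := Nat.lt_pow_succ_log_self (by norm_num) _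
  have h2 : (q : ℝ) ≤ 2 ^ (Nat.log 2 q + 1) := by exact_mod_cast h1.le
  calc (q : ℝ) ^ ((1 - η) / 3) ≤ ((2 : ℝ) ^ (Nat.log 2 q + 1)) ^ ((1 - η) / 3) :=
        Real.rpow_le_rpow (by positivity) h2 (by linarith)
    _ = 2 ^ (((Nat.log 2 q : ℕ) + 1 : ℝ) * ((1 - η) / 3)) := by
      rw [← Real.rpow_natCast, ← Real.rpow_mul (by norm_num)]
      push_cast
      rfl

theorem card_le_H {η : ℝ} {i j q : ℕ} (hb : q ∈ Blk i) (hH : q ∉ ExcH η i) (G : Finset ℤ)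
    (hG : ∀ x ∈ G, |(x : ℝ)| ≤ 2 ^ (i + 1 + j) ∧ ¬ (q : ℤ) ∣ x ∧ Min q x ∧
      1000 * (q : ℝ) < |(x : ℝ)|) :
    (G.card : ℝ) ≤ (2 : ℝ) ^ ((902 / 1000 + η) * i + (952 / 1000) * j) := by
  classical
  have h1 : G ⊆ HS i j q := by
    intro x hx
    obtain ⟨a1, a2, a3, a4⟩ := hG x hx
    simp only [HS, Finset.mem_filter, Finset.mem_Icc]
    refine ⟨?_, a2, a3, a4⟩
    have := abs_le.1 a1
    constructor
    · exact_mod_cast this.1
    · exact_mod_cast this.2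
  have h2 : ¬ (2 : ℝ) ^ ((902 / 1000 + η) * i + (952 / 1000) * j) < (HS i j q).card :=
    fun h => hH ⟨hb, j, h⟩
  calc (G.card : ℝ) ≤ (HS i j q).card := by exact_mod_cast Finset.card_le_card h1
    _ ≤ _ := not_lt.1 h2

theorem card_le_F {η : ℝ} {i q : ℕ} (hb : q ∈ Blk i) (hF : q ∉ ExcF η i) (G : Finset ℤ)
    (hG : ∀ x ∈ G, ¬ (q : ℤ) ∣ x ∧ Fail q (2 * i + 14) x) :
    (G.card : ℝ) ≤ (2 : ℝ) ^ ((902 / 1000 + η) * i) := by
  classical
  have h1 : G ⊆ FS i q := by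
    intro x hx
    obtain ⟨a1, a2⟩ := hG x hx
    simp only [FS, Finset.mem_filter, Finset.mem_Icc]
    refine ⟨?_, a1, a2⟩
    have h3 : |(x : ℝ)| ≤ 2 ^ (i + 11) := by
      have h4 := a2.1
      push_cast at h4
      rw [Nat.abs_cast] at h4
      have h5 : (q : ℝ) ≤ 2 ^ (i + 1) := by exact_mod_cast hb.2.2.2.le
      have h6 : (2 : ℝ) ^ (i + 11) = 1024 * 2 ^ (i + 1) := by ring
      rw [h6]
      have : (0 : ℝ) ≤ q := Nat.cast_nonneg q
      nlinarith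
    have := abs_le.1 h3
    constructor
    · exact_mod_cast this.1
    · exact_mod_cast this.2
  have h2 : ¬ (2 : ℝ) ^ ((902 / 1000 + η) * i) < (FS i q).card := fun h => hF ⟨hb, h⟩
  calc (G.card : ℝ) ≤ (FS i q).card := by exact_mod_cast Finset.card_le_card h1
    _ ≤ _ := not_lt.1 h2

theorem two_i_le {q : ℕ} (h5 : 5 ≤ q) : 2 * (Nat.log 2 q : ℝ) + 14 ≤ 29 * (q : ℝ) ^ (1 / 5 : ℝ) := by
  have hq : (1 : ℝ) ≤ q := by
    have : 1 ≤ q := by omega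
    exact_mod_cast this
  have h1 : (2 : ℝ) ^ (Nat.log 2 q) ≤ q := by
    have := Nat.pow_log_le_self 2 (x := q) (by omega)
    exact_mod_cast this
  have h2 := Real.log_le_log (by positivity) h1
  rw [Real.log_pow] at h2
  have h3 : Real.log q ≤ (q : ℝ) ^ (1 / 5 : ℝ) / (1 / 5) :=
    Real.log_le_rpow_div (by linarith) (by norm_num)
  have h4 := Real.log_two_gt_d9
  have h6 : 1 ≤ (q : ℝ) ^ (1 / 5 : ℝ) := Real.one_le_rpow hq (by norm_num)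
  have h7 : (0 : ℝ) ≤ Nat.log 2 q := Nat.cast_nonneg _
  have h8 : (Nat.log 2 q : ℝ) * 0.69 ≤ 5 * (q : ℝ) ^ (1 / 5 : ℝ) := by nlinarith
  linarith

theorem prime_few {η : ℝ} (hη : 0 < η) (hη2 : η ≤ 1 / 2) {q : ℕ} (hp : q.Prime) (h5 : 5 ≤ q)
    (hE : q ∉ Exc η) {X : ℝ} (hX : (q : ℝ) ≤ X) :
    FewClasses q X (120000 * (q : ℝ) ^ (902 / 1000 + η) * (X / q) ^ (952 / 1000 : ℝ)) := by
  obtain ⟨hb, hB, hH, hF⟩ := not_bad hp h5 hE
  set i := Nat.log 2 q with hi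
  have hq1 : (1 : ℝ) ≤ q := by
    have : 1 ≤ q := by omega
    exact_mod_cast this
  have hqpos : (0 : ℝ) < q := by linarith
  have hXq : 1 ≤ X / q := by rw [le_div_iff₀ hqpos]; linarith
  set j := Nat.log 2 ⌊X / q⌋₊ with hj
  have hfl : 1 ≤ ⌊X / q⌋₊ := Nat.le_floor (by simpa using hXq)
  have hj1 : (2 : ℝ) ^ j ≤ X / q := by
    have : 2 ^ j ≤ ⌊X / q⌋₊ := Nat.pow_log_le_self 2 (by omega)
    calc (2 : ℝ) ^ j ≤ (⌊X / q⌋₊ : ℝ) := by exact_mod_cast this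
      _ ≤ X / q := Nat.floor_le (by linarith)
  have hj2 : X / q ≤ 2 ^ (j + 1) := by
    have : ⌊X / q⌋₊ < 2 ^ (j + 1) := Nat.lt_pow_succ_log_self (by norm_num) _
    have h3 : ⌊X / q⌋₊ + 1 ≤ 2 ^ (j + 1) := this
    calc X / q ≤ (⌊X / q⌋₊ : ℝ) + 1 := (Nat.lt_floor_add_one _).le
      _ ≤ 2 ^ (j + 1) := by exact_mod_cast h3
  have hi1 : (2 : ℝ) ^ i ≤ q := by exact_mod_cast hb.2.2.1
  have hi2 : (q : ℝ) ≤ 2 ^ (i + 1) := by exact_mod_cast hb.2.2.2.le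
  have hX2 : X ≤ 2 ^ (i + 1 + (j + 1)) := by
    rw [div_le_iff₀ hqpos] at hj2
    calc X ≤ 2 ^ (j + 1) * q := hj2
      _ ≤ 2 ^ (j + 1) * 2 ^ (i + 1) := mul_le_mul_of_nonneg_left hi2 (by positivity)
      _ = 2 ^ (i + 1 + (j + 1)) := by ring
  set A : ℝ := (q : ℝ) ^ (902 / 1000 + η) with hA
  set D : ℝ := (X / q) ^ (952 / 1000 : ℝ) with hD
  have hA1 : 1 ≤ A := Real.one_le_rpow hq1 (by linarith)
  have hD1 : 1 ≤ D := Real.one_le_rpow hXq (by norm_num)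
  have hAi : (2 : ℝ) ^ ((902 / 1000 + η) * i) ≤ A := by
    have e : (2 : ℝ) ^ ((902 / 1000 + η) * i) = ((2 : ℝ) ^ i) ^ (902 / 1000 + η) := by
      rw [← Real.rpow_natCast, ← Real.rpow_mul (by norm_num), mul_comm]
    rw [e]
    exact Real.rpow_le_rpow (by positivity) hi1 (by linarith)
  have hDj : (2 : ℝ) ^ ((952 / 1000 : ℝ) * ((j + 1 : ℕ) : ℝ)) ≤ 2 * D := by
    have e : (2 : ℝ) ^ ((952 / 1000 : ℝ) * ((j + 1 : ℕ) : ℝ)) =
        2 ^ (952 / 1000 : ℝ) * ((2 : ℝ) ^ j) ^ (952 / 1000 : ℝ) := by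
      rw [← Real.rpow_natCast 2 j, ← Real.rpow_mul (by norm_num), ← Real.rpow_add (by norm_num)]
      congr 1
      push_cast
      ring
    rw [e]
    have e1 : (2 : ℝ) ^ (952 / 1000 : ℝ) ≤ 2 := by
      calc (2 : ℝ) ^ (952 / 1000 : ℝ) ≤ 2 ^ (1 : ℝ) :=
            Real.rpow_le_rpow_of_exponent_le (by norm_num) (by norm_num)
        _ = 2 := Real.rpow_one 2
    exact mul_le_mul e1 (Real.rpow_le_rpow (by positivity) hj1 (by norm_num)) (by positivity)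
      (by norm_num)
  have hL1 : 1 ≤ LL η i := by
    refine le_trans ?_ (LL_ge hη2 h5)
    apply Nat.le_floor
    rw [Nat.cast_one]
    exact Real.one_le_rpow hq1 (by linarith)
  have hL2 : (q : ℝ) ^ ((1 - η) / 3) ≤ 2 * (LL η i : ℝ) := by
    have h1 := LL_ge hη2 h5
    rw [← hi] at h1
    have h2 : ((⌊(q : ℝ) ^ ((1 - η) / 3)⌋₊ : ℕ) : ℝ) ≤ LL η i := by exact_mod_cast h1
    have h3 := Nat.lt_floor_add_one ((q : ℝ) ^ ((1 - η) / 3))
    have h4 : (1 : ℝ) ≤ LL η i := by exact_mod_cast hL1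
    linarith
  have hmain := prime_count (L := LL η i) (w := 2 * i + 14) (q := q) hL1 (by omega) hp h5 hB
    (X := X) (H := 2 * A * D) (F := A) hX
    (by
      intro G hG
      refine (card_le_H (j := j + 1) hb hH G (fun x hx => ?_)).trans ?_
      · obtain ⟨a1, a2⟩ := hG x hx
        exact ⟨a1.trans hX2, a2⟩
      · rw [Real.rpow_add (by norm_num)]
        calc (2 : ℝ) ^ ((902 / 1000 + η) * i) * 2 ^ ((952 / 1000 : ℝ) * ((j + 1 : ℕ) : ℝ)) ≤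
              A * (2 * D) := mul_le_mul hAi hDj (by positivity) (by positivity)
          _ = 2 * A * D := by ring)
    (by
      intro G hG
      exact (card_le_F hb hF G hG).trans hAi)
  intro S hS hm
  refine (hmain S hS hm).trans ?_
  have hAD : A ≤ A * D := by nlinarith
  have h1AD : 1 ≤ A * D := by nlinarith
  have t1 : (X / q) ^ (951 / 1000 : ℝ) ≤ A * D := by
    have : (X / q) ^ (951 / 1000 : ℝ) ≤ D :=
      Real.rpow_le_rpow_of_exponent_le hXq (by norm_num)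
    nlinarith
  have t2 : 2001 * (q : ℝ) * ((2 * i + 14 : ℕ) : ℝ) / (LL η i : ℝ) ≤ 116058 * A := by
    have hLpos : (0 : ℝ) < LL η i := by
      have : (1 : ℝ) ≤ LL η i := by exact_mod_cast hL1
      linarith
    rw [div_le_iff₀ hLpos]
    have s1 := two_i_le h5
    rw [← hi] at s1
    have s2 : (q : ℝ) * (q : ℝ) ^ (1 / 5 : ℝ) ≤ A * (q : ℝ) ^ ((1 - η) / 3) := by
      have s3 : (q : ℝ) * (q : ℝ) ^ (1 / 5 : ℝ) = (q : ℝ) ^ (1 + 1 / 5 : ℝ) := by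
        rw [Real.rpow_add hqpos, Real.rpow_one]
      rw [s3, hA, ← Real.rpow_add hqpos]
      exact Real.rpow_le_rpow_of_exponent_le hq1 (by linarith)
    push_cast
    calc 2001 * (q : ℝ) * (2 * (i : ℝ) + 14) ≤ 2001 * q * (29 * (q : ℝ) ^ (1 / 5 : ℝ)) :=
          mul_le_mul_of_nonneg_left s1 (by positivity)
      _ = 58029 * (q * (q : ℝ) ^ (1 / 5 : ℝ)) := by ring
      _ ≤ 58029 * (A * (q : ℝ) ^ ((1 - η) / 3)) := mul_le_mul_of_nonneg_left s2 (by norm_num)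
      _ ≤ 58029 * (A * (2 * (LL η i : ℝ))) := by
        apply mul_le_mul_of_nonneg_left _ (by norm_num)
        exact mul_le_mul_of_nonneg_left hL2 (by linarith)
      _ = 116058 * A * (LL η i : ℝ) := by ring
  have e : 120000 * A * D = 120000 * (A * D) := by ring
  rw [e]
  nlinarith

/-- no close returns modulo `k` -/
theorem prime_returns {η : ℝ} (hη2 : η ≤ 1 / 2) {k : ℤ} (hp : k.natAbs.Prime) (h5 : 5 ≤ k.natAbs)
    (hE : k.natAbs ∉ Exc η) {x : ℤ} (hx : ¬ k ∣ x) {i j : ℕ} (hij : i < j)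
    (hj : (j : ℝ) ≤ i + |(k : ℝ)| ^ ((1 - η) / 3)) : ¬ (T k)^[i] x ≡ (T k)^[j] x [ZMOD k] := by
  obtain ⟨hb, hB, -, -⟩ := not_bad hp h5 hE
  have hL := LL_ge hη2 h5
  have hkodd : k % 2 = 1 := by
    rcases hp.eq_two_or_odd with h | h <;> omega
  intro h
  have hkd : ((k.natAbs : ℕ) : ℤ) ∣ k := by
    rw [Int.natCast_natAbs]
    exact (abs_dvd _ _).2 (dvd_refl _)
  have hd : ¬ ((k.natAbs : ℕ) : ℤ) ∣ x := by
    intro hd
    apply hx
    rw [Int.natCast_natAbs, abs_dvd] at hd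
    exact hd
  refine distinct hkodd hp h5 hkd hB hd hij ?_ (h.of_dvd hkd)
  have h1 : ((j - i : ℕ) : ℝ) ≤ |(k : ℝ)| ^ ((1 - η) / 3) := by
    rw [Nat.cast_sub hij.le]
    linarith
  rw [← natAbs_real] at h1
  have h2 : j - i ≤ ⌊((k.natAbs : ℕ) : ℝ) ^ ((1 - η) / 3)⌋₊ := Nat.le_floor h1
  omega

theorem prime_few' {η : ℝ} (hη : 0 < η) (hη2 : η ≤ 1 / 2) {k : ℤ} (hp : k.natAbs.Prime)
    (h5 : 5 ≤ k.natAbs) (hE : k.natAbs ∉ Exc η) {X : ℝ} (hX : |(k : ℝ)| ≤ X) :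
    FewClasses k X (120000 * |(k : ℝ)| ^ (902 / 1000 + η) * (X / |(k : ℝ)|) ^ (952 / 1000 : ℝ)) := by
  have hkodd : ((k.natAbs : ℕ) : ℤ) % 2 = 1 := by
    rcases hp.eq_two_or_odd with h | h <;> omega
  rw [← natAbs_real] at hX ⊢
  have h := prime_few hη hη2 hp h5 hE hX
  rcases Int.natAbs_eq k with hk | hk
  · rw [hk]
    simpa using h
  · rw [hk]
    have := few_neg hkodd h
    simpa using this

end Pool.Agent.Helper89K9.TK
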