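import Pool.Agent.Helper89K9.TK.Basic

/-! Counting integers whose first parities contain many odd terms. -/

set_option autoImplicit false

namespace Pool.Agent.Helper89K9.TK

open Finset

/-- the odd times before `n` -/
def ow (k x : ℤ) (n : ℕ) : Finset ℕ := (range n).filter (fun i => ¬ ((T k)^[i] x) % 2 = 0)

theorem ow_succ (k x : ℤ) (n : ℕ) : ow k x (n + 1) =
    if ((T k)^[n] x) % 2 = 0 then ow k x n else insert n (ow k x n) := by
  unfold ow
  rw [Finset.range_add_one, Finset.filter_insert]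
  split_ifs with h1 h2 h2 <;> simp_all

theorem card_ow (k x : ℤ) (n : ℕ) : (ow k x n).card = oc k x n := by
  induction n with
  | zero => simp [ow, oc]
  | succ n ih =>
    rw [ow_succ]
    simp only [oc]
    split_ifs with h
    · rw [ih, add_zero]
    · rw [Finset.card_insert_of_notMem, ih]
      unfold ow
      simp

theorem ow_prev {k x y : ℤ} {n : ℕ} (h : ow k x (n + 1) = ow k y (n + 1)) :
    ow k x n = ow k y n ∧ (((T k)^[n] x) % 2 = 0 ↔ ((T k)^[n] y) % 2 = 0) := by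
  constructor
  · ext i
    unfold ow at *
    have h1 := Finset.ext_iff.1 h i
    simp only [Finset.mem_filter, Finset.mem_range] at h1 ⊢
    constructor
    · rintro ⟨a, b⟩
      exact ⟨a, (h1.1 ⟨by omega, b⟩).2⟩
    · rintro ⟨a, b⟩
      exact ⟨a, (h1.2 ⟨by omega, b⟩).2⟩
  · have h1 := Finset.ext_iff.1 h n
    unfold ow at h1
    simp only [Finset.mem_filter, Finset.mem_range] at h1
    have h2 : n < n + 1 := by omega
    tauto

theorem word_diff {k : ℤ} (hk : k % 2 = 1) (x y : ℤ) (n : ℕ) (h : ow k x n = ow k y n) :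
    2 ^ n * ((T k)^[n] x - (T k)^[n] y) = 3 ^ oc k x n * (x - y) := by
  induction n with
  | zero => simp [oc]
  | succ n ih =>
    obtain ⟨h1, h2⟩ := ow_prev h
    have h3 := ih h1
    rw [Function.iterate_succ_apply', Function.iterate_succ_apply']
    simp only [oc]
    set u := (T k)^[n] x with hu
    set v := (T k)^[n] y with hv
    have e : (2 : ℤ) ^ (n + 1) * (T k u - T k v) = 2 ^ n * (2 * T k u - 2 * T k v) := by ring
    rw [e]
    by_cases hc : u % 2 = 0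
    · rw [if_pos hc, add_zero, two_T_even hc, two_T_even (h2.1 hc), h3]
    · rw [if_neg hc, two_T_odd hk hc, two_T_odd hk (fun h => hc (h2.2 h))]
      have : (2 : ℤ) ^ n * (3 * u + k - (3 * v + k)) = 3 * (2 ^ n * (u - v)) := by ring
      rw [this, h3]
      ring

theorem word_dvd {k : ℤ} (hk : k % 2 = 1) (x y : ℤ) (n : ℕ) (h : ow k x n = ow k y n) :
    (2 : ℤ) ^ n ∣ x - y := by
  have h1 := word_diff hk x y n h
  have h2 : (2 : ℤ) ^ n ∣ 3 ^ oc k x n * (x - y) := ⟨_, h1.symm⟩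
  have h3 : IsCoprime ((2 : ℤ) ^ n) (3 ^ oc k x n) := IsCoprime.pow (by norm_num)
  exact h3.dvd_of_dvd_mul_left h2

theorem card_class {M : ℤ} (hM : 0 < M) {Y : ℝ} (hY : 0 ≤ Y) (G : Finset ℤ)
    (hG : ∀ x ∈ G, |(x : ℝ)| ≤ Y) (hc : ∀ x ∈ G, ∀ y ∈ G, M ∣ x - y) :
    (G.card : ℝ) ≤ 2 * Y / M + 1 := by
  have hMr : (0 : ℝ) < M := by exact_mod_cast hM
  rcases G.eq_empty_or_nonempty with h | h
  · subst h
    simp only [Finset.card_empty, Nat.cast_zero]
    positivity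
  set a := G.min' h with ha
  have haG : a ∈ G := Finset.min'_mem _ _
  have hmap : ∀ x ∈ G, (x - a) / M ∈ Finset.Icc (0 : ℤ) ⌊2 * Y / M⌋ := by
    intro x hx
    have hax : a ≤ x := Finset.min'_le _ _ hx
    rw [Finset.mem_Icc]
    refine ⟨Int.ediv_nonneg (by linarith) hM.le, ?_⟩
    rw [Int.le_floor]
    obtain ⟨c, hc'⟩ := hc x hx a haG
    rw [hc', Int.mul_ediv_cancel_left _ hM.ne']
    rw [le_div_iff₀ hMr]
    have e1 : ((x - a : ℤ) : ℝ) = M * c := by rw [hc']; push_cast; ring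
    push_cast at e1
    have h1 := abs_le.1 (hG x hx)
    have h2 := abs_le.1 (hG a haG)
    nlinarith [h1.1, h1.2, h2.1, h2.2]
  have hinj : Set.InjOn (fun x => (x - a) / M) (G : Set ℤ) := by
    intro x hx y hy hxy
    simp only at hxy
    obtain ⟨c, hc'⟩ := hc x hx a haG
    obtain ⟨d, hd'⟩ := hc y hy a haG
    rw [hc', hd', Int.mul_ediv_cancel_left _ hM.ne', Int.mul_ediv_cancel_left _ hM.ne'] at hxy
    subst hxy
    linarith
  have hcard := Finset.card_le_card_of_injOn _ hmap hinj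
  rw [Int.card_Icc] at hcard
  have hfl : (0 : ℤ) ≤ ⌊2 * Y / M⌋ := Int.floor_nonneg.2 (by positivity)
  have h3 : ((⌊2 * Y / M⌋ + 1 - 0).toNat : ℝ) = (⌊2 * Y / M⌋ : ℝ) + 1 := by
    have : ((⌊2 * Y / M⌋ + 1 - 0).toNat : ℤ) = ⌊2 * Y / M⌋ + 1 := by
      rw [Int.toNat_of_nonneg (by linarith)]
      ring
    exact_mod_cast this
  calc (G.card : ℝ) ≤ ((⌊2 * Y / M⌋ + 1 - 0).toNat : ℝ) := by exact_mod_cast hcard
    _ = (⌊2 * Y / M⌋ : ℝ) + 1 := h3
    _ ≤ 2 * Y / M + 1 := by linarith [Int.floor_le (2 * Y / M)]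

/-- the number of words -/
theorem card_words {c : ℝ} (hc : 1 ≤ c) (n : ℕ) (W : Finset (Finset ℕ)) (hW : W ⊆ (range n).powerset)
    (hbig : ∀ s ∈ W, (2 : ℝ) ^ n ≤ c * 3.001 ^ s.card) :
    (W.card : ℝ) ≤ c * 2 ^ ((951 / 1000 : ℝ) * n) := by
  have hc0 : 0 < c := by linarith
  -- each word has weight at least `(2^n/c)^(14/29)`
  have h1 : ∀ s ∈ W, ((2 : ℝ) ^ n / c) ^ (14 / 29 : ℝ) ≤ 1.7 ^ s.card := by
    intro s hs
    have a1 : (2 : ℝ) ^ n / c ≤ 3.001 ^ s.card := by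
      rw [div_le_iff₀ hc0]
      have := hbig s hs
      linarith
    have a2 : ((2 : ℝ) ^ n / c) ^ (14 / 29 : ℝ) ≤ ((3.001 : ℝ) ^ s.card) ^ (14 / 29 : ℝ) :=
      Real.rpow_le_rpow (by positivity) a1 (by norm_num)
    refine a2.trans ?_
    have a3 : ((3.001 : ℝ) ^ s.card) ^ (14 / 29 : ℝ) = ((3.001 : ℝ) ^ (14 / 29 : ℝ)) ^ s.card := by
      rw [← Real.rpow_natCast, ← Real.rpow_natCast, ← Real.rpow_mul (by norm_num),
        ← Real.rpow_mul (by norm_num), mul_comm]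
    rw [a3]
    apply pow_le_pow_left₀ (by positivity)
    have a4 : ((3.001 : ℝ) ^ (14 / 29 : ℝ)) = ((3.001 : ℝ) ^ (14 : ℕ)) ^ (1 / 29 : ℝ) := by
      rw [← Real.rpow_natCast, ← Real.rpow_mul (by norm_num)]
      norm_num
    rw [a4]
    have a5 : (1.7 : ℝ) = ((1.7 : ℝ) ^ (29 : ℕ)) ^ (1 / 29 : ℝ) := by
      rw [← Real.rpow_natCast, ← Real.rpow_mul (by norm_num)]
      norm_num
    rw [a5]
    apply Real.rpow_le_rpow (by positivity) _ (by norm_num)
    norm_num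
  have h2 : ∑ s ∈ (range n).powerset, (1.7 : ℝ) ^ s.card = 2.7 ^ n := by
    have := Finset.sum_pow_mul_eq_add_pow (1.7 : ℝ) 1 (range n)
    simp only [one_pow, mul_one, Finset.card_range] at this
    rw [this]
    norm_num
  have h3 : (W.card : ℝ) * ((2 : ℝ) ^ n / c) ^ (14 / 29 : ℝ) ≤ 2.7 ^ n := by
    rw [← h2]
    calc (W.card : ℝ) * ((2 : ℝ) ^ n / c) ^ (14 / 29 : ℝ) =
        ∑ s ∈ W, ((2 : ℝ) ^ n / c) ^ (14 / 29 : ℝ) := by rw [Finset.sum_const, nsmul_eq_mul]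
      _ ≤ ∑ s ∈ W, (1.7 : ℝ) ^ s.card := Finset.sum_le_sum h1
      _ ≤ ∑ s ∈ (range n).powerset, (1.7 : ℝ) ^ s.card :=
        Finset.sum_le_sum_of_subset_of_nonneg hW (fun _ _ _ => by positivity)
  have h4 : (2.7 : ℝ) ^ n ≤ 2 ^ ((43 / 30 : ℝ) * n) := by
    have b1 : (2.7 : ℝ) ≤ 2 ^ (43 / 30 : ℝ) := by
      have b2 : (2.7 : ℝ) = ((2.7 : ℝ) ^ (30 : ℕ)) ^ (1 / 30 : ℝ) := by
        rw [← Real.rpow_natCast, ← Real.rpow_mul (by norm_num)]
        norm_num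
      have b3 : (2 : ℝ) ^ (43 / 30 : ℝ) = ((2 : ℝ) ^ (43 : ℕ)) ^ (1 / 30 : ℝ) := by
        rw [← Real.rpow_natCast, ← Real.rpow_mul (by norm_num)]
        norm_num
      rw [b2, b3]
      apply Real.rpow_le_rpow (by positivity) _ (by norm_num)
      norm_num
    calc (2.7 : ℝ) ^ n ≤ (2 ^ (43 / 30 : ℝ)) ^ n := pow_le_pow_left₀ (by norm_num) b1 n
      _ = 2 ^ ((43 / 30 : ℝ) * n) := by
        rw [← Real.rpow_natCast, ← Real.rpow_mul (by norm_num)]
  have h5 : ((2 : ℝ) ^ n / c) ^ (14 / 29 : ℝ) = 2 ^ ((14 / 29 : ℝ) * n) / c ^ (14 / 29 : ℝ) := by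
    rw [Real.div_rpow (by positivity) hc0.le, ← Real.rpow_natCast, ← Real.rpow_mul (by norm_num),
      mul_comm (n : ℝ)]
  have h6 : c ^ (14 / 29 : ℝ) ≤ c := by
    calc c ^ (14 / 29 : ℝ) ≤ c ^ (1 : ℝ) := Real.rpow_le_rpow_of_exponent_le hc (by norm_num)
      _ = c := Real.rpow_one c
  have hp1 : (0 : ℝ) < 2 ^ ((14 / 29 : ℝ) * n) := by positivity
  have hp2 : (0 : ℝ) < c ^ (14 / 29 : ℝ) := by positivity
  rw [h5, ← mul_div_assoc, div_le_iff₀ hp2] at h3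
  have h7 : (W.card : ℝ) * 2 ^ ((14 / 29 : ℝ) * n) ≤ (c * 2 ^ ((951 / 1000 : ℝ) * n)) *
      2 ^ ((14 / 29 : ℝ) * n) := by
    calc (W.card : ℝ) * 2 ^ ((14 / 29 : ℝ) * n) ≤ 2.7 ^ n * c ^ (14 / 29 : ℝ) := h3
      _ ≤ 2 ^ ((43 / 30 : ℝ) * n) * c := mul_le_mul h4 h6 hp2.le (by positivity)
      _ ≤ 2 ^ ((951 / 1000 : ℝ) * n + (14 / 29 : ℝ) * n) * c := by
        apply mul_le_mul_of_nonneg_right _ hc0.le
        apply Real.rpow_le_rpow_of_exponent_le (by norm_num)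
        have : (0 : ℝ) ≤ n := Nat.cast_nonneg n
        nlinarith
      _ = (c * 2 ^ ((951 / 1000 : ℝ) * n)) * 2 ^ ((14 / 29 : ℝ) * n) := by
        rw [Real.rpow_add (by norm_num)]
        ring
  exact le_of_mul_le_mul_right h7 hp1

/-- integers of size at most `Y` with many odd terms -/
theorem card_many_odd {k : ℤ} (hk : k % 2 = 1) {c Y : ℝ} (hc : 1 ≤ c) (hY : 0 ≤ Y) (n : ℕ)
    (F : Finset ℤ) (hF : ∀ x ∈ F, |(x : ℝ)| ≤ Y)
    (hbig : ∀ x ∈ F, (2 : ℝ) ^ n ≤ c * 3.001 ^ oc k x n) :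
    (F.card : ℝ) ≤ c * 2 ^ ((951 / 1000 : ℝ) * n) * (2 * Y / 2 ^ n + 1) := by
  set W := F.image (fun x => ow k x n) with hW
  have h1 : (W.card : ℝ) ≤ c * 2 ^ ((951 / 1000 : ℝ) * n) := by
    apply card_words hc n W
    · intro s hs
      rw [hW, Finset.mem_image] at hs
      obtain ⟨x, _, rfl⟩ := hs
      rw [Finset.mem_powerset]
      exact Finset.filter_subset _ _
    · intro s hs
      rw [hW, Finset.mem_image] at hs
      obtain ⟨x, hx, rfl⟩ := hs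
      rw [card_ow]
      exact hbig x hx
  have h2 : ∀ s ∈ W, ((F.filter (fun x => ow k x n = s)).card : ℝ) ≤ 2 * Y / 2 ^ n + 1 := by
    intro s _
    have := card_class (M := 2 ^ n) (by positivity) hY (F.filter (fun x => ow k x n = s))
      (fun x hx => hF x (Finset.mem_filter.1 hx).1) (by
        intro x hx y hy
        rw [Finset.mem_filter] at hx hy
        exact word_dvd hk x y n (hx.2.trans hy.2.symm))
    push_cast at this
    exact this
  have h3 : F.card = ∑ s ∈ W, (F.filter (fun x => ow k x n = s)).card :=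
    Finset.card_eq_sum_card_image _ _
  have hpos : 0 ≤ 2 * Y / 2 ^ n + 1 := by positivity
  calc (F.card : ℝ) = ∑ s ∈ W, ((F.filter (fun x => ow k x n = s)).card : ℝ) := by
        rw [h3]
        push_cast
        rfl
    _ ≤ ∑ s ∈ W, (2 * Y / 2 ^ n + 1) := Finset.sum_le_sum h2
    _ = W.card * (2 * Y / 2 ^ n + 1) := by rw [Finset.sum_const, nsmul_eq_mul]
    _ ≤ _ := mul_le_mul_of_nonneg_right h1 hpos

end Pool.Agent.Helper89K9.TK
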